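import Pool.Agent.Q264.KS.Def

/-!
# Statements of the project KS (MP_a3b3eb_an), proofs in the docstrings
-/

namespace Pool.Agent.Q264.KS

open Module

universe u

/-- FINA (uniqueness of the functional and equivariance).
(1) If `‖v‖ = 1`, `g v = g' v = 1` and both `z - 2 g(z) v`, `z - 2 g'(z) v` are isometries then
`g = g'`: with `k = g' - g` (so `k v = 0`) the composition is
`z ↦ z + 2 k(z) v` (up to the sign of k), hence by iteration `‖z + (2 n k(z)) v‖ = ‖z‖` for all `n`,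
and `‖z + (2 n k(z)) v‖ ≥ 2 n |k z| - ‖z‖` forces `k z = 0`.
(2) If `U` is a linear map with `U (U z) = z` and `‖U z‖ = ‖z‖` and `U v = w`, `g` belongs to `v`
and `h` belongs to `w`, then `h (U z) = g z`: the map `z ↦ U (z' - 2 g(z') v)` at `z' = U z` is
`z - 2 g(U z) w`, an isometry with `g (U w) = g v = 1`, so `g ∘ U` belongs to `w`, and by (1)
`h = g ∘ U`. -/
def S_FINA : Prop :=
  ∀ (X : Type u) [NormedAddCommGroup X] [NormedSpace ℝ X] (U : X →ₗ[ℝ] X),
    (∀ z, U (U z) = z) → (∀ z, ‖U z‖ = ‖z‖) → ∀ v : X, ‖v‖ = 1 →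
      ∀ g h : X →ₗ[ℝ] ℝ, g v = 1 → (∀ z, ‖z - (2 * g z) • v‖ = ‖z‖) →
        h (U v) = 1 → (∀ z, ‖z - (2 * h z) • (U v)‖ = ‖z‖) → ∀ z, h (U z) = g z

/-- FINB (strict convexity). If all unit vectors have isometric reflections then the norm is
strictly convex. Suppose `x ≠ y`, `‖x‖ = ‖y‖ = 1` and `‖(1-l)x + l y‖ = 1` with `0 < l < 1`.
By convexity of `t ↦ ‖(1-t)x + t y‖` (which is at most 1 on [0,1], equals 1 at an interior point,
so is identically 1 on [0,1]) every point of the segment has norm 1. Put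
`w₁ = (2/3)x + (1/3)y`, `w₂ = (1/3)x + (2/3)y`, with functionals `g₁`, `g₂`. As
`g v = 1` and the reflection is an isometry, `|2 g z| = ‖z - R z‖ ≤ 2‖z‖`, so `|g z| ≤ ‖z‖`.
So `g₁ x ≤ 1`, `g₁ y ≤ 1` and `g₁ w₁ = 1` give `g₁ x = g₁ y = 1`, the same for `g₂`. So on
points `z` of the line through x, y (`z = x + t(y-x)`, `gᵢ z = 1`) one has `Rᵢ z = z - 2 wᵢ`, so `-Rᵢ z = 2wᵢ - z`
is on the line and `R₂ R₁ z = R₂(z - 2w₁) = z - 2 w₁ - 2 (1 - 2) w₂ = z + 2(w₂ - w₁)`, of the same norm. Iterating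
from `x`: `‖x + 2 n (w₂ - w₁)‖ = 1` for all n, impossible as `w₂ - w₁ = (y-x)/3 ≠ 0`. -/
def S_FINB : Prop :=
  ∀ (X : Type u) [NormedAddCommGroup X] [NormedSpace ℝ X],
    (∀ v : X, ‖v‖ = 1 → Refl v) → ∀ x y : X, ‖x‖ = 1 → ‖y‖ = 1 → ∀ l : ℝ, 0 < l → l < 1 →
      ‖(1 - l) • x + l • y‖ = 1 → x = y

/-- FINC (symmetry). Let `G v` be the functional of the reflection at the unit vector `v` (hypotheses
hG1, hG2). Given FINA and FINB, `G x y = G y x` for unit vectors `x`, `y`.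
Clear for x = y. Let `u = (x - y)/‖x - y‖` and `R z = z - 2 (G u z) u`, a linear isometric involution.
`R x` has norm 1 and is on the line through `x` and `y`: `R x = x - (2 G u x / ‖x-y‖)(x - y)`, i.e.
the point `p(l) = x - l (x - y)` with `l = 2 G u x / ‖x - y‖`; `p(0) = x`, `p(1) = y`. By strict
convexity (three different points of a line do not have the same norm 1: one of the three is
strictly between the two others) `l = 0` or `l = 1`.
If `l = 0`: `G u x = 0`, `R x = x`, so by FINA (with U = R, v = x) `G x (R z) = G x z`, at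
`z = u`: `-G x u = G x u`, so `G x u = 0`, `G x (x - y) = 0`, `G x ((x+y)/2) = 1`, so
`‖(x+y)/2‖ ≥ 1` (`|G x z| ≤ ‖z‖` as in FINB), so it is 1, contradiction with FINB.
If `l = 1`: `R x = y`, so by FINA `G y (R z) = G x z`, at `z = y` (`R y = x`): `G y x = G x y`. -/
def S_FINC : Prop :=
  S_FINA.{u} → S_FINB.{u} → ∀ (X : Type u) [NormedAddCommGroup X] [NormedSpace ℝ X] (G : X → X →ₗ[ℝ] ℝ),
    (∀ v : X, ‖v‖ = 1 → G v v = 1) →
    (∀ v : X, ‖v‖ = 1 → ∀ z, ‖z - (2 * G v z) • v‖ = ‖z‖) →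
    ∀ x y : X, ‖x‖ = 1 → ‖y‖ = 1 → G x y = G y x

/-- FIND. Given FINC, the norm is Hilbertian. Choose `G` (from Refl). Put
`s x y = ‖x‖ * G (‖x‖⁻¹ • x) y` (which is 0 for x = 0). It is linear in y, `s x x = ‖x‖ ^ 2`,
and symmetric: for x, y ≠ 0, `s x y = ‖x‖ ‖y‖ G x̂ ŷ`. So it is linear in x as well;
`B = LinearMap.mk₂ ℝ s ...`. -/
def S_FIND : Prop :=
  S_FINA.{u} → S_FINB.{u} → S_FINC.{u} → ∀ (X : Type u) [NormedAddCommGroup X] [NormedSpace ℝ X],
    (∀ v : X, ‖v‖ = 1 → Refl v) → IsHilb X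

/-- CLO. If the unit vectors with an isometric reflection are dense in the unit sphere of a finite
dimensional space, all unit vectors have one. Take unit `w k → v` with functionals `g k`;
`|g z| ≤ ‖z‖` (as `2 g(z) w = z - R z`), so (finite dimension) the `g k`, as continuous
functionals, are in the closed unit ball of the dual, which is compact (the dual is finite
dimensional, ProperSpace), so a subsequence converges to some `g` and the identities pass to the
limit. -/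
def S_CLO : Prop :=
  ∀ (X : Type u) [NormedAddCommGroup X] [NormedSpace ℝ X] [FiniteDimensional ℝ X],
    (∀ v : X, ‖v‖ = 1 → ∀ ε : ℝ, 0 < ε → ∃ w : X, ‖w‖ = 1 ∧ ‖w - v‖ < ε ∧ Refl w) →
    ∀ v : X, ‖v‖ = 1 → Refl v

/-- DEN. The unit vectors at which the norm is differentiable are dense in the unit sphere.
Rademacher (LipschitzWith.ae_differentiableAt, any Haar measure, finite dimension) gives that the norm is
differentiable at almost every point, so on a dense set (the complement of a null set is dense);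
take such a point `z` close to `v`, z ≠ 0; the norm is differentiable at `‖z‖⁻¹ • z` too
(`differentiableAt_norm_smul` in Mathlib/Analysis/Calculus/FDeriv/Norm.lean). -/
def S_DEN : Prop :=
  ∀ (X : Type u) [NormedAddCommGroup X] [NormedSpace ℝ X] [FiniteDimensional ℝ X],
    ∀ v : X, ‖v‖ = 1 → ∀ ε : ℝ, 0 < ε → ∃ w : X, ‖w‖ = 1 ∧ ‖w - v‖ < ε ∧
      DifferentiableAt ℝ (fun z : X => ‖z‖) w

/-- SELN. Norming: every functional on a nontrivial finite dimensional space attains its norm at a unit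
vector. -/
def S_SELN : Prop :=
  ∀ (X : Type u) [NormedAddCommGroup X] [NormedSpace ℝ X] [FiniteDimensional ℝ X] [Nontrivial X],
    ∀ g : X →L[ℝ] ℝ, ∃ x : X, ‖x‖ = 1 ∧ g x = ‖g‖

/-- SELS (one step of the selection). `Y` a proper subspace containing `v`, `M` a subspace of
the functionals such that some functional `e` with `e v = 0` is not in `M`; `g₀ v = 0`. Then for every
`δ > 0` there are a functional `g` and a unit vector `x` with `g v = 0`, `‖g - g₀‖ < δ`, `g ∉ M`, `x ∉ Y` and `g x = ‖g‖`.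
Proof. Choose `g` with `g v = 0`, `‖g - g₀‖ < δ/2`, `g ∉ M` (g₀ itself or g₀ + small multiple of e),
note g ≠ 0. Let `x` be norming for `g` (SELN). If `x ∉ Y` done. Let `x ∈ Y`. Take a functional
`η ≠ 0` vanishing on `Y` (so `η v = 0`). There is small `t ≠ 0` with `g' = g + t η` not in `M`
(if `g + t η ∈ M` and `g + (t/2) η ∈ M` then the difference `(t/2)η ∈ M`, so `g ∈ M`), `‖g' - g₀‖ < δ`, g' ≠ 0.
Let `x'` be norming for `g'`. If `x' ∉ Y` done. If `x' ∈ Y`: `‖g'‖ = g' x' = g x' ≤ ‖g‖`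
and `‖g‖ = g x = g' x ≤ ‖g'‖`, so `‖g‖ = ‖g'‖ > 0` and `g/‖g‖`, `g'/‖g‖` are both norming
at `x`, so equal by Uniq, so `t η = 0`, contradiction. -/
def S_SELS : Prop :=
  S_SELN.{u} → ∀ (X : Type u) [NormedAddCommGroup X] [NormedSpace ℝ X] [FiniteDimensional ℝ X] [Nontrivial X],
    Uniq X → ∀ (v : X) (Y : Submodule ℝ X) (M : Submodule ℝ (X →L[ℝ] ℝ)) (e g₀ : X →L[ℝ] ℝ),
      v ∈ Y → Y ≠ ⊤ → e v = 0 → e ∉ M → g₀ v = 0 → ∀ δ : ℝ, 0 < δ →
        ∃ (g : X →L[ℝ] ℝ) (x : X), g v = 0 ∧ ‖g - g₀‖ < δ ∧ g ∉ M ∧ x ∉ Y ∧ ‖x‖ = 1 ∧ g x = ‖g‖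

/-- SEL (selection). In a smooth space of dimension at least 2, for `v ≠ 0` there are unit vectors
`x i` (i < n - 1) with functionals `f i`, norming (after scaling), vanishing at `v`, with
`f i (x j) > 0`, the `f i` independent, and `v`, `x i` independent.
Proof. Let `g₀` be a functional of norm 1 with `g₀ v = 0` (exists as n ≥ 2). By induction on
`k ≤ n - 1` construct such families indexed by `Fin k`, with `‖f i - g₀‖ < 1/8`, using SELS with
`δ = 1/8`, `Y` = span of `v` and the `x i` (dimension at most k + 1 < n), `M` = span of the `f i`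
(dimension at most k < n - 1 = dimension of the functionals vanishing at `v`, so `e` exists)
(`Fin.snoc`, `linearIndependent_finSnoc` / `LinearIndependent.fin_cons'`...).
Positivity at the end: `f i (x j) ≥ f j (x j) - ‖f i - f j‖ ≥ ‖f j‖ - 1/4 ≥ 7/8 - 1/4 > 0`. -/
def S_SEL : Prop :=
  S_SELN.{u} → S_SELS.{u} → ∀ (X : Type u) [NormedAddCommGroup X] [NormedSpace ℝ X] [FiniteDimensional ℝ X],
    2 ≤ finrank ℝ X → Uniq X → ∀ v : X, v ≠ 0 →
      ∃ (x : Fin (finrank ℝ X - 1) → X) (f : Fin (finrank ℝ X - 1) → X →L[ℝ] ℝ),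
        (∀ i, ‖x i‖ = 1) ∧ (∀ i, f i (x i) = ‖f i‖) ∧ (∀ i, f i v = 0) ∧
        (∀ i j, 0 < f i (x j)) ∧ LinearIndependent ℝ f ∧
        LinearIndependent ℝ x ∧ v ∉ Submodule.span ℝ (Set.range x)

/-- UNI. Differentiability of the norm implies uniqueness of norming functionals at the point: `‖y‖ - g y ≥ 0` has a minimum
(value 0) at `x` so `g` is the derivative of the norm. -/
def S_UNI : Prop :=
  ∀ (X : Type u) [NormedAddCommGroup X] [NormedSpace ℝ X] (x : X),
    DifferentiableAt ℝ (fun z : X => ‖z‖) x → ∀ g : X →L[ℝ] ℝ, (∀ z, g z ≤ ‖z‖) → g x = ‖x‖ →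
      g = fderiv ℝ (fun z : X => ‖z‖) x

/-- BJD. If the norm is differentiable at `x`, then `BJ x y` iff the derivative `D` at `x` vanishes at
`y`. If BJ x y: the function `l ↦ ‖x + l y‖` has a minimum at 0, its derivative there is `D y`.
Conversely `‖x + l y‖ ≥ D (x + l y) = D x = ‖x‖` (`|D z| ≤ ‖z‖` as the norm is 1-Lipschitz;
`DifferentiableAt.fderiv_norm_self`). -/
def S_BJD : Prop :=
  ∀ (X : Type u) [NormedAddCommGroup X] [NormedSpace ℝ X] (x : X),
    DifferentiableAt ℝ (fun z : X => ‖z‖) x → ∀ y : X,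
      (BJ x y ↔ fderiv ℝ (fun z : X => ‖z‖) x y = 0)

/-- MIN. For an injective or not linear `R` on a nontrivial finite dimensional space there is a
unit `x` with `‖R x‖ * ‖z‖ ≤ ‖R z‖` for all `z`, and `R` preserves BJ orthogonality at `x`
(`‖R x + l R y‖ ≥ ‖R x‖ ‖x + l y‖ ≥ ‖R x‖ ‖x‖ = ‖R x‖`). -/
def S_MIN : Prop :=
  ∀ (X : Type u) [NormedAddCommGroup X] [NormedSpace ℝ X] [FiniteDimensional ℝ X] [Nontrivial X]
    (R : X →ₗ[ℝ] X), ∃ x : X, ‖x‖ = 1 ∧ (∀ z, ‖R x‖ * ‖z‖ ≤ ‖R z‖) ∧ Pres R x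

/-- TWO. Let dim X = 2 with (P), `x₁` a unit vector at which the norm is differentiable with derivative
`D`. Then `Refl x₁` with `g = D`. Proof. `D x₁ = 1`. Let `v ≠ 0` be in the kernel of `D` (1-dimensional); `x₁, v` is a basis.
Let `T z = z - 2 (D z) x₁`: it maps `a x₁ + b v` to `-a x₁ + b v`, T (T z) = z. Suppose T is not an isometry; then (T involution) some
`z` has `‖T z‖ < ‖z‖`. MIN: unit `x` with `‖T x‖ ‖z‖ ≤ ‖T z‖`, so `m = ‖T x‖ < 1`, T preserves
BJ at `x` and at `x₁` (BJD: BJ x₁ y gives D y = 0, so T y = y, T x₁ = -x₁, and BJ (-x₁) y from BJ x₁ y).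
Let `x = a x₁ + b v`; `a ≠ 0` and `b ≠ 0` as otherwise `‖T x‖ = ‖x‖ = 1`. So `x`, `x₁` are
independent, `A = {x₁, x}` satisfies (i). (ii): BJ x₁ x fails as `D x = a ≠ 0`. BJ x x₁ fails: else
`‖T x‖ = ‖x - 2 a x₁‖ ≥ ‖x‖ = 1`. Hence for A = A₁ ∪ A₂: if A₁ or A₂ contains both or they share a point, then
use that `BJ z z` fails for z ≠ 0 (l = -1); otherwise one of them is {x₁}, the other {x}. By (P) A is a K-set, so
`T = c U`; `‖T x₁‖ = 1` gives |c| = 1, so `‖T x‖ = 1`, contradiction. -/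
def S_TWO : Prop :=
  S_BJD.{u} → S_MIN.{u} → ∀ (X : Type u) [NormedAddCommGroup X] [NormedSpace ℝ X] [FiniteDimensional ℝ X],
    finrank ℝ X = 2 → PropP X → ∀ x : X, ‖x‖ = 1 → DifferentiableAt ℝ (fun z : X => ‖z‖) x →
      Refl x

end Pool.Agent.Q264.KS
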