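import Pool.Agent.Q264.KS.Def

/-!
# Local isometries are isometries in a space with property (P)
-/

namespace Pool.Agent.Q264.KS

open Module

variable {X : Type*} [NormedAddCommGroup X] [NormedSpace ℝ X]

theorem BJ_smul {x y : X} {a b : ℝ} (ha : a ≠ 0) (hb : b ≠ 0) (h : BJ (a • x) (b • y)) :
    BJ x y := by
  intro l
  have h1 := h (a * l / b)
  have h2 : a • x + (a * l / b) • b • y = a • (x + l • y) := by
    rw [smul_smul, smul_add, smul_smul]
    congr 2
    field_simp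
  rw [h2, norm_smul, norm_smul] at h1
  exact le_of_mul_le_mul_left h1 (norm_pos_iff.2 ha)

theorem BJ_of_small {u w : X} {δ : ℝ} (hδ : 0 < δ)
    (h : ∀ l : ℝ, |l| < δ → ‖u‖ ≤ ‖u + l • w‖) : BJ u w := by
  intro l
  obtain ⟨t, ht0, ht1, ht⟩ : ∃ t : ℝ, 0 < t ∧ t ≤ 1 ∧ |t * l| < δ := by
    refine ⟨min 1 (δ / (2 * (|l| + 1))), by positivity, min_le_left _ _, ?_⟩
    rw [abs_mul, abs_of_pos (by positivity : (0:ℝ) < min 1 (δ / (2 * (|l| + 1))))]
    calc min 1 (δ / (2 * (|l| + 1))) * |l| ≤ (δ / (2 * (|l| + 1))) * |l| :=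
          mul_le_mul_of_nonneg_right (min_le_right _ _) (abs_nonneg _)
      _ < δ := by
          rw [div_mul_eq_mul_div, div_lt_iff₀ (by positivity)]
          nlinarith [abs_nonneg l]
  have h1 := h (t * l) ht
  have h2 : u + (t * l) • w = (1 - t) • u + t • (u + l • w) := by
    rw [sub_smul, one_smul, smul_add, smul_smul]
    abel
  have h3 : ‖(1 - t) • u + t • (u + l • w)‖ ≤ (1 - t) * ‖u‖ + t * ‖u + l • w‖ := by
    refine le_trans (norm_add_le _ _) ?_
    rw [norm_smul, norm_smul, Real.norm_of_nonneg (by linarith), Real.norm_of_nonneg ht0.le]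
  rw [h2] at h1
  have h4 : t * ‖u‖ ≤ t * ‖u + l • w‖ := by nlinarith
  exact le_of_mul_le_mul_left h4 ht0

theorem local_iso [FiniteDimensional ℝ X] (hn : 2 ≤ finrank ℝ X) (hP : PropP X)
    (T : X →ₗ[ℝ] X) (O : Set X) (hO : IsOpen O) (hne : O.Nonempty)
    (h : ∀ x ∈ O, ‖T x‖ = ‖x‖) : ∀ x, ‖T x‖ = ‖x‖ := by
  classical
  have hnt : Nontrivial X := Module.nontrivial_of_finrank_pos (R := ℝ) (by omega)
  -- a nonzero point of O
  obtain ⟨x0, hx0O, hx0⟩ : ∃ x0 ∈ O, x0 ≠ 0 := by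
    by_contra hcon
    push Not at hcon
    obtain ⟨a, ha⟩ := hne
    have ha0 := hcon a ha
    subst ha0
    obtain ⟨r, hr, hb⟩ := Metric.isOpen_iff.1 hO 0 ha
    obtain ⟨y, hy⟩ := exists_ne (0 : X)
    have hyn : 0 < ‖y‖ := norm_pos_iff.2 hy
    have h1 : (r / (2 * ‖y‖)) • y ∈ O := by
      apply hb
      rw [mem_ball_zero_iff, norm_smul, Real.norm_of_nonneg (by positivity)]
      have : r / (2 * ‖y‖) * ‖y‖ = r / 2 := by field_simp
      rw [this]
      linarith
    have h2 := hcon _ h1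
    rcases smul_eq_zero.1 h2 with h3 | h3
    · have : 0 < r / (2 * ‖y‖) := by positivity
      linarith
    · exact hy h3
  have hx0n : 0 < ‖x0‖ := norm_pos_iff.2 hx0
  obtain ⟨r0, hr0, hb0⟩ := Metric.isOpen_iff.1 hO x0 hx0O
  set r : ℝ := min r0 (‖x0‖ / 3) with hr
  have hrpos : 0 < r := by positivity
  have hrb : Metric.ball x0 r ⊆ O := fun z hz => hb0 (Metric.ball_subset_ball (min_le_left _ _) hz)
  have hr3 : 3 * r ≤ ‖x0‖ := by
    have : r ≤ ‖x0‖ / 3 := min_le_right _ _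
    linarith
  have hnorm : ∀ z ∈ Metric.ball x0 r, 2 * r < ‖z‖ := by
    intro z hz
    rw [mem_ball_iff_norm] at hz
    have h1 : ‖x0‖ ≤ ‖z‖ + ‖z - x0‖ := by
      have : x0 = z - (z - x0) := by abel
      calc ‖x0‖ = ‖z - (z - x0)‖ := by rw [← this]
        _ ≤ ‖z‖ + ‖z - x0‖ := norm_sub_le _ _
    linarith
  -- T preserves BJ at points of the ball
  have hPres : ∀ z ∈ Metric.ball x0 r, Pres T z := by
    intro z hz y hy
    obtain ⟨ε, hε, hbe⟩ := Metric.isOpen_iff.1 Metric.isOpen_ball z hz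
    apply BJ_of_small (δ := ε / (‖y‖ + 1)) (by positivity)
    intro l hl
    have h1 : z + l • y ∈ Metric.ball x0 r := by
      apply hbe
      rw [mem_ball_iff_norm, add_sub_cancel_left, norm_smul, Real.norm_eq_abs]
      calc |l| * ‖y‖ ≤ |l| * (‖y‖ + 1) := by nlinarith [abs_nonneg l]
        _ < ε / (‖y‖ + 1) * (‖y‖ + 1) := mul_lt_mul_of_pos_right hl (by positivity)
        _ = ε := by field_simp
    have h2 : T z + l • T y = T (z + l • y) := by rw [map_add, map_smul]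
    rw [h2, h _ (hrb h1), h _ (hrb hz)]
    exact hy l
  -- a basis in the ball
  obtain ⟨b, hbs, hbspan, hbli⟩ := exists_linearIndependent ℝ (Metric.ball x0 r)
  have htop : Submodule.span ℝ (Metric.ball x0 r) = ⊤ := by
    apply Submodule.eq_top_of_nonempty_interior'
    refine ⟨x0, ?_⟩
    rw [mem_interior]
    exact ⟨Metric.ball x0 r, Submodule.subset_span, Metric.isOpen_ball, Metric.mem_ball_self hrpos⟩
  have hbtop : ⊤ ≤ Submodule.span ℝ (Set.range ((↑) : b → X)) := by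
    rw [Subtype.range_coe, hbspan, htop]
  let B : Basis b ℝ X := Basis.mk hbli hbtop
  haveI : Fintype b := FiniteDimensional.fintypeBasisIndex B
  have hcard : Fintype.card b = finrank ℝ X := (Module.finrank_eq_card_basis B).symm
  let e : Fin (finrank ℝ X) ≃ b := (Fintype.equivFinOfCardEq hcard).symm
  have hbb : ∀ i, ((e i : b) : X) ∈ Metric.ball x0 r := fun i => hbs (e i).2
  have hbn : ∀ i, 0 < ‖((e i : b) : X)‖ := fun i => lt_trans (by linarith) (hnorm _ (hbb i))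
  set x : Fin (finrank ℝ X) → X := fun i => (‖((e i : b) : X)‖⁻¹) • ((e i : b) : X) with hx
  have hxli : LinearIndependent ℝ x := by
    have h1 : LinearIndependent ℝ (fun i => ((e i : b) : X)) := hbli.comp e e.injective
    exact h1.units_smul (fun i => Units.mk0 _ (inv_ne_zero (hbn i).ne'))
  have hx1 : ∀ i, ‖x i‖ = 1 := by
    intro i
    rw [hx]
    simp only []
    rw [norm_smul, norm_inv, norm_norm, inv_mul_cancel₀ (hbn i).ne']
  have hno : ∀ i j, ¬ BJ (x i) (x j) := by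
    intro i j hij
    have h1 := BJ_smul (inv_ne_zero (hbn i).ne') (inv_ne_zero (hbn j).ne') hij
    have h2 := h1 (-1)
    have h3 := hnorm _ (hbb i)
    have h4 := hbb i
    have h5 := hbb j
    rw [mem_ball_iff_norm] at h4 h5
    have h6 : ‖((e i : b) : X) + (-1 : ℝ) • ((e j : b) : X)‖ ≤
        ‖((e i : b) : X) - x0‖ + ‖((e j : b) : X) - x0‖ := by
      have : ((e i : b) : X) + (-1 : ℝ) • ((e j : b) : X) =
          (((e i : b) : X) - x0) - (((e j : b) : X) - x0) := by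
        rw [neg_one_smul]
        abel
      rw [this]
      exact norm_sub_le _ _
    linarith
  have hK : IsK (Set.range x) := by
    refine ((hP (Set.range x) ?_ ?_).2 ⟨⟨x, hxli, rfl⟩, ?_⟩).1
    · exact ⟨x ⟨0, by omega⟩, ⟨_, rfl⟩⟩
    · rintro _ ⟨i, rfl⟩
      exact hx1 i
    · intro A₁ A₂ hAA hA1 hA2 hall
      obtain ⟨a, ha⟩ := hA1
      obtain ⟨c, hc⟩ := hA2
      have haA : a ∈ Set.range x := by
        rw [hAA]
        exact Or.inl ha
      have hcA : c ∈ Set.range x := by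
        rw [hAA]
        exact Or.inr hc
      obtain ⟨i, rfl⟩ := haA
      obtain ⟨j, rfl⟩ := hcA
      exact hno i j (hall _ ha _ hc)
  obtain ⟨c, U, hUn, hTU⟩ := hK T (by
    rintro _ ⟨i, rfl⟩ y hy
    have h1 : BJ ((e i : b) : X) y := by
      apply BJ_smul (inv_ne_zero (hbn i).ne') one_ne_zero
      rw [one_smul]
      exact hy
    have h2 := hPres _ (hbb i) y h1
    apply BJ_smul (a := ‖((e i : b) : X)‖) (b := 1) (hbn i).ne' one_ne_zero
    rw [one_smul, ← map_smul]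
    simp only [hx]
    rw [smul_smul, mul_inv_cancel₀ (hbn i).ne', one_smul]
    exact h2)
  have hn1 : ∀ z, ‖T z‖ = |c| * ‖z‖ := by
    intro z
    rw [hTU, LinearMap.smul_apply, norm_smul, hUn, Real.norm_eq_abs]
  have hc : |c| = 1 := by
    have h1 := hn1 x0
    rw [h x0 hx0O] at h1
    have h2 : (|c| - 1) * ‖x0‖ = 0 := by linarith
    rcases mul_eq_zero.1 h2 with h3 | h3
    · linarith
    · exact absurd h3 hx0n.ne'
  intro z
  rw [hn1 z, hc, one_mul]

theorem no_flat [FiniteDimensional ℝ X] (hn : 2 ≤ finrank ℝ X) (hP : PropP X)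
    (z : X) (hz : z ≠ 0) (O : Set X) (hO : IsOpen O) (hne : O.Nonempty) :
    ∃ x ∈ O, ¬ BJ x z := by
  classical
  by_contra hcon
  push Not at hcon
  obtain ⟨x0, hx0⟩ := hne
  obtain ⟨r0, hr0, hb0⟩ := Metric.isOpen_iff.1 hO x0 hx0
  have hzn : 0 < ‖z‖ := norm_pos_iff.2 hz
  -- a functional vanishing at z
  have hlt : Submodule.span ℝ {z} < ⊤ := by
    rw [lt_top_iff_ne_top]
    intro h
    have h1 : finrank ℝ (Submodule.span ℝ {z}) = finrank ℝ X := by
      rw [h, finrank_top]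
    rw [finrank_span_singleton hz] at h1
    omega
  obtain ⟨ψ, hψ0, hψ⟩ := Submodule.exists_le_ker_of_lt_top _ hlt
  have hψz : ψ z = 0 := hψ (Submodule.mem_span_singleton_self z)
  obtain ⟨w, hw⟩ : ∃ w, ψ w ≠ 0 := by
    by_contra h
    push Not at h
    exact hψ0 (LinearMap.ext h)
  set Ψ : X →L[ℝ] ℝ := LinearMap.toContinuousLinearMap ψ with hΨ
  have hΨa : ∀ y, |ψ y| ≤ ‖Ψ‖ * ‖y‖ := fun y => Ψ.le_opNorm y
  set M : ℝ := ‖Ψ‖ * (‖x0‖ + r0) + 1 with hM
  have hMpos : 0 < M := by positivity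
  set ε : ℝ := r0 / (2 * M * ‖z‖) with hε
  have hεpos : 0 < ε := by positivity
  set T : X →ₗ[ℝ] X := LinearMap.id + ε • ψ.smulRight z with hT
  have hTz : ∀ y, T y = y + (ε * ψ y) • z := by
    intro y
    simp [hT, smul_smul]
  have hiso := local_iso hn hP T (Metric.ball x0 (r0 / 2)) Metric.isOpen_ball
    ⟨x0, Metric.mem_ball_self (by positivity)⟩ (by
      intro y hy
      have hyO : y ∈ O := hb0 (Metric.ball_subset_ball (by linarith) hy)
      have hyn : ‖y - x0‖ < r0 / 2 := by rwa [mem_ball_iff_norm] at hy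
      have hyb : ‖y‖ ≤ ‖x0‖ + r0 := by
        have : y = x0 + (y - x0) := by abel
        calc ‖y‖ = ‖x0 + (y - x0)‖ := by rw [← this]
          _ ≤ ‖x0‖ + ‖y - x0‖ := norm_add_le _ _
          _ ≤ ‖x0‖ + r0 := by linarith
      have h1 : |ψ y| ≤ M := by
        have := hΨa y
        have h2 : ‖Ψ‖ * ‖y‖ ≤ ‖Ψ‖ * (‖x0‖ + r0) := mul_le_mul_of_nonneg_left hyb (norm_nonneg _)
        linarith
      have hTy : T y ∈ O := by
        apply hb0
        rw [mem_ball_iff_norm, hTz]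
        have h3 : y + (ε * ψ y) • z - x0 = (y - x0) + (ε * ψ y) • z := by abel
        rw [h3]
        have h4 : ‖(ε * ψ y) • z‖ ≤ r0 / 2 := by
          rw [norm_smul, Real.norm_eq_abs, abs_mul, abs_of_pos hεpos]
          calc ε * |ψ y| * ‖z‖ ≤ ε * M * ‖z‖ := by
                apply mul_le_mul_of_nonneg_right _ (norm_nonneg _)
                exact mul_le_mul_of_nonneg_left h1 hεpos.le
            _ = r0 / 2 := by
                rw [hε]
                field_simp
        calc ‖(y - x0) + (ε * ψ y) • z‖ ≤ ‖y - x0‖ + ‖(ε * ψ y) • z‖ := norm_add_le _ _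
          _ < r0 := by linarith
      apply le_antisymm
      · have h5 := hcon (T y) hTy (-(ε * ψ y))
        have h6 : T y + (-(ε * ψ y)) • z = y := by
          rw [hTz, neg_smul]
          abel
        rwa [h6] at h5
      · rw [hTz]
        exact hcon y hyO (ε * ψ y))
  have hiter : ∀ k : ℕ, ‖w + ((k : ℝ) * (ε * ψ w)) • z‖ = ‖w‖ := by
    intro k
    induction k with
    | zero => simp
    | succ k ih =>
      rw [← ih, ← hiso (w + ((k : ℝ) * (ε * ψ w)) • z), hTz, map_add, map_smul, hψz, smul_zero,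
        add_zero]
      congr 1
      push_cast
      rw [add_mul, one_mul, add_smul, add_assoc]
  obtain ⟨k, hk⟩ := exists_nat_gt (2 * ‖w‖ / (|ε * ψ w| * ‖z‖))
  have hpos : 0 < |ε * ψ w| * ‖z‖ := mul_pos (abs_pos.2 (mul_ne_zero hεpos.ne' hw)) hzn
  rw [div_lt_iff₀ hpos] at hk
  have h1 : ‖((k : ℝ) * (ε * ψ w)) • z‖ ≤ ‖w + ((k : ℝ) * (ε * ψ w)) • z‖ + ‖w‖ := by
    have : ((k : ℝ) * (ε * ψ w)) • z = (w + ((k : ℝ) * (ε * ψ w)) • z) - w := by abel
    calc ‖((k : ℝ) * (ε * ψ w)) • z‖ = ‖(w + ((k : ℝ) * (ε * ψ w)) • z) - w‖ := by rw [← this]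
      _ ≤ _ := norm_sub_le _ _
  rw [hiter k, norm_smul, Real.norm_eq_abs, abs_mul, Nat.abs_cast] at h1
  nlinarith

end Pool.Agent.Q264.KS
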