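import Pool.Agent.Q264.KS.Stm
import Pool.Agent.Q264.KS.Local

/-!
# Dimension three (project KS, MP_a3b3eb_an), proofs in the docstrings

Useful lemmas in Pool/Agent/Q264/KS/Local.lean (proved): `BJ_smul`, `BJ_of_small`, `local_iso`,
`no_flat`. Proved by the others: `S_BJD`, `S_UNI`, `S_DEN`, `S_MIN` (see Stm.lean).
-/

namespace Pool.Agent.Q264.KS

open Module Filter Topology

universe u

/-- The derivative of the norm. -/
noncomputable def D {X : Type*} [NormedAddCommGroup X] [NormedSpace ℝ X] (x : X) : X →L[ℝ] ℝ :=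
  fderiv ℝ (fun z : X => ‖z‖) x

/-- The norm is differentiable at `x`. -/
def Sm {X : Type*} [NormedAddCommGroup X] [NormedSpace ℝ X] (x : X) : Prop :=
  DifferentiableAt ℝ (fun z : X => ‖z‖) x

/-- `g` is a limit of derivatives of the norm at points converging to `z`. -/
def Lim {X : Type*} [NormedAddCommGroup X] [NormedSpace ℝ X] (z : X) (g : X →L[ℝ] ℝ) : Prop :=
  ∃ x : ℕ → X, (∀ k, Sm (x k)) ∧ Tendsto x atTop (𝓝 z) ∧ Tendsto (fun k => D (x k)) atTop (𝓝 g)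

/-- S2 (lens lemma, dimension 3). Notation `n₁ = ‖x₁‖`, `n₂ = ‖x₂‖`, `D₁ = D x₁`, `D₂ = D x₂`; `Dᵢ xᵢ = nᵢ`,
`|Dᵢ z| ≤ ‖z‖`; `D₁ x₂ ≥ D₁ x₁ - ‖x₁-x₂‖ ≥ (7/8) n₁`, likewise `D₂ x₁ ≥ (7/8) n₂`.
`x₁, x₂` are independent: if `x₂ = c x₁` then c > 0 and D₂ = D₁ (fderiv_norm_smul_pos). `v` is not in their span: else
`v = p x₁ + q x₂`, `p n₁ + q D₁ x₂ = 0`, `p D₂ x₁ + q n₂ = 0`, `(p,q) ≠ 0` so `D₁ x₂ D₂ x₁ = n₁ n₂`, and
as `D₁ x₂ ≤ n₂`, `D₂ x₁ ≤ n₁`, equality `D₁ x₂ = n₂`, so `D₁ = D₂` by S_UNI, contradiction.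
So `x₁, x₂, v` is a basis; let `p, q, φ` be the coordinate functionals (`z = p z x₁ + q z x₂ + φ z v`).
`BJ x₁ v`, `BJ x₂ v` by S_BJD. Suppose `h = a x₁ + b x₂` (a, b ≥ 0) is not BJ to `v`; then a, b > 0
(BJ 0 v is trivial, BJ is homogeneous) and there is `l₀` with `‖h + l₀ v‖ < ‖h‖`. There is `k` with
`‖h + l₀ 2^(-k) v‖ < ‖h + l₀ 2^(-k-1) v‖` (otherwise `‖h + l₀ v‖ ≥ ‖h + l₀/2 v‖ ≥ ... → ‖h‖`).
Put `T z = z + φ(z) v` (identity on x₁, x₂, `T v = 2 v`). So for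
`z' = h + l₀ 2^(-k-1) v` we have `‖T z'‖ < ‖z'‖`. Let `C = {z : 0 ≤ p z, 0 ≤ q z}` (closed cone), let `x₃` minimise `‖T z‖`
on the compact set `C ∩ unit sphere`, `m = ‖T x₃‖`, so `m < 1` and `‖T z‖ ≥ m ‖z‖` on `C`.
Write `x₃ = a₁ x₁ + a₂ x₂ + l v`. `a₂ > 0`: if `a₂ = 0` and `a₁ > 0`, then since BJ (a₁x₁) v the convex function
`l ↦ ‖a₁x₁ + l v‖` has its minimum at 0, so `‖a₁x₁ + 2l v‖ ≥ ‖a₁x₁ + l v‖ = 1`, contradiction; if a₁ = a₂ = 0,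
`‖T x₃‖ = 2`. Likewise `a₁ > 0`. `l ≠ 0` (else T x₃ = x₃).
Pres T x₃: `x₃ + t y ∈ C` for small t, so `‖T x₃ + t T y‖ ≥ m ‖x₃ + t y‖ ≥ m = ‖T x₃‖` if BJ x₃ y (BJ_of_small).
Pres T xᵢ: BJ xᵢ y iff Dᵢ y = 0, and T xᵢ = xᵢ, Dᵢ (T y) = Dᵢ y + φ(y) Dᵢ v = 0.
Bounds: `D₁ x₃ = a₁ n₁ + a₂ D₁ x₂ ≤ 1`, so `a₂ (7/8) n₁ ≤ 1`; likewise `a₁ (7/8) n₂ ≤ 1`.
Non-orthogonality: (1) `Dᵢ x₃ > 0`, `D₁ x₂ > 0`, `D₂ x₁ > 0`, so no BJ x₁ x₂, x₂ x₁, x₁ x₃, x₂ x₃.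
(2) no BJ x₃ x₁: with `e = a₁x₁ + a₂x₂ = x₃ - l v`, `l v = T x₃ - x₃`, for t = 1/2 (or small t):
`x₃ - t e = (1 - 2t) x₃ + t T x₃` has norm `≤ 1 - 2t + t m`, and
`x₃ - t (a₁+a₂) x₁ = x₃ - t e + t a₂ (x₂ - x₁)` has norm `≤ 1 - 2t + t m + t a₂ n₁/8 ≤ 1 - 2t + t m + t/7 < 1`.
(3) no BJ x₃ x₂ in the same way. BJ z z fails for z ≠ 0. So A = {x₁/n₁, x₂/n₂, x₃} satisfies (i) (independent as l ≠ 0) and (ii); by (P) it
is a K-set, so `T = c U`; `T x₁ = x₁` gives |c| = 1, so `‖T x₃‖ = 1`, contradiction. -/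
def S_S2 : Prop :=
  S_BJD.{u} → S_UNI.{u} → ∀ (X : Type u) [NormedAddCommGroup X] [NormedSpace ℝ X] [FiniteDimensional ℝ X],
    finrank ℝ X = 3 → PropP X → ∀ x₁ x₂ v : X, Sm x₁ → Sm x₂ → ‖x₁ - x₂‖ ≤ ‖x₁‖ / 8 →
      ‖x₁ - x₂‖ ≤ ‖x₂‖ / 8 → D x₁ v = 0 → D x₂ v = 0 → v ≠ 0 → D x₁ ≠ D x₂ →
      ∀ a b : ℝ, 0 ≤ a → 0 ≤ b → BJ (a • x₁ + b • x₂) v

/-- S2C (closure of S2). Let `x k → z`, `D (x k) → g`. `g ≠ D x`, so they are linearly independent (`g z = 1`, `‖g‖ ≤ 1`,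
`‖D x‖ = 1`; if `g = c D x` then |c| = 1, and `D x z ≥ ‖x‖ - ‖x - z‖ > 0` gives c = 1). Choose `q` with
`D x q = 0`, `g q = 1`. `v k = v - (D (x k) v / D (x k) q) q → v`, `D (x k) (v k) = 0`, `D x (v k) = 0`. For large k
the hypotheses of S2 hold for `x k`, `x`, `v k`, so BJ (a x_k + b x) (v k); pass to the limit (BJ is closed). -/
def S_S2C : Prop :=
  S_S2.{u} → S_BJD.{u} → S_UNI.{u} → ∀ (X : Type u) [NormedAddCommGroup X] [NormedSpace ℝ X] [FiniteDimensional ℝ X],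
    finrank ℝ X = 3 → PropP X → ∀ (z x v : X) (g : X →L[ℝ] ℝ), ‖z‖ = 1 → Lim z g → Sm x →
      ‖x - z‖ ≤ 1 / 16 → g v = 0 → D x v = 0 → v ≠ 0 → g ≠ D x →
      ∀ a b : ℝ, 0 ≤ a → 0 ≤ b → BJ (a • z + b • x) v

/-- K0. If the norm is not differentiable at the unit vector `z` there are two different limits of derivatives.
Limits exist: smooth points are dense (S_DEN, scaled), derivatives are in the unit ball of the (finite
dimensional) dual, compactness. Suppose that `g` is the only limit. Then for every ε there is δ such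
that `‖D x - g‖ ≤ ε` for all smooth `x` with `‖x - z‖ < δ` (else a sequence and compactness give another limit).
For smooth x, y in this ball: `‖y‖ - ‖x‖ ≥ D x (y - x) ≥ g (y-x) - ε‖y-x‖` (as `D x y ≤ ‖y‖`, `D x x = ‖x‖`) and
`‖y‖ - ‖x‖ ≤ D y (y - x) ≤ g (y - x) + ε‖y-x‖`. By density for all x, y in the ball, in particular x = z: the norm is
differentiable at z with derivative g. -/
def S_K0 : Prop :=
  S_DEN.{u} → ∀ (X : Type u) [NormedAddCommGroup X] [NormedSpace ℝ X] [FiniteDimensional ℝ X],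
    ∀ z : X, ‖z‖ = 1 → ¬ Sm z → ∃ g₁ g₂ : X →L[ℝ] ℝ, g₁ ≠ g₂ ∧ Lim z g₁ ∧ Lim z g₂

/-- AE. By Rademacher almost every `x` is a point of differentiability, and the maps
`x ↦ z + (1/2)^k (x - z)` preserve null sets (homothety / translation), so almost every x has all its
points `z + (1/2)^k (x - z)` smooth; nonempty open sets are not null. -/
def S_AE : Prop :=
  ∀ (X : Type u) [NormedAddCommGroup X] [NormedSpace ℝ X] [FiniteDimensional ℝ X],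
    ∀ (z : X) (O : Set X), IsOpen O → O.Nonempty →
      ∃ x ∈ O, ∀ k : ℕ, Sm (z + ((1 / 2 : ℝ) ^ k) • (x - z))

/-- K2. Let `z` be a unit vector where the norm is not differentiable; `g₁ ≠ g₂` from K0 (limits of derivatives:
`‖gᵢ‖ ≤ 1`, `gᵢ z = 1`). They are independent (g₁ = c g₂ gives c = 1 at z). Let `u ≠ 0` with `g₁ u = g₂ u = 0` (dimension 3).
By `no_flat` (applied to `u` and the ball of radius 1/16 around z) there is a point of the ball which is not BJ to u; not being BJ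
to u is an open condition, so there is an open nonempty `O` inside the ball with ¬ BJ x u for x ∈ O.
Let x ∈ O be as in AE, so x and all `h k = z + (1/2)^k (x - z)` are smooth. `D x u ≠ 0` (BJD), so
`g₁, g₂, D x` are independent; choose `v₁ ≠ 0` with `g₁ v₁ = D x v₁ = 0` and `v₂ ≠ 0` with `g₂ v₂ = D x v₂ = 0`;
`v₁, v₂` are independent (if proportional, v₁ is killed by all three functionals, so 0) and span the kernel of `D x`. By S2C, `h k` (a combination of z and x with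
nonnegative coefficients) is BJ to `v₁` and `v₂`, so `D (h k)` vanishes on the kernel of `D x`, so `D (h k) = c D x`, and
norms 1 and positivity (`D (h k) (h k) > 0`, `D x (h k) ≥ ‖x‖ - ‖x - h k‖ > 0`) give `D (h k) = D x`. So `D x (h k) = ‖h k‖`, k → ∞:
`D x z = 1`. Hence `‖x + t z‖ ≥ D x (x + t z) = ‖x‖ + t`, so `‖x + t z‖ = ‖x‖ + t` for t ≥ 0. Such x are
dense in O (AE for all open subsets of O), so this holds for all x ∈ O by continuity. -/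
def S_K2 : Prop :=
  S_S2C.{u} → S_S2.{u} → S_BJD.{u} → S_UNI.{u} → S_DEN.{u} → S_K0.{u} → S_AE.{u} →
    ∀ (X : Type u) [NormedAddCommGroup X] [NormedSpace ℝ X] [FiniteDimensional ℝ X],
    finrank ℝ X = 3 → PropP X → ∀ z : X, ‖z‖ = 1 → ¬ Sm z →
      ∃ O : Set X, IsOpen O ∧ O.Nonempty ∧ O ⊆ Metric.ball z (1 / 16) ∧
        ∀ x ∈ O, ∀ t : ℝ, 0 ≤ t → ‖x + t • z‖ = ‖x‖ + t

/-- HB (James). If `BJ h v`, there is a functional `g` with `g y ≤ ‖y‖`, `g h = ‖h‖`, `g v = 0`. (Hahn-Banach: a dual vector of the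
class of `h` in the quotient by the span of `v`, whose norm is ‖h‖; or geometric Hahn-Banach for the open ball
of radius ‖h‖ and the line h + ℝ v.) The case h = 0 or v = 0 is included (v = 0 : exists_dual_vector). -/
def S_HB : Prop :=
  ∀ (X : Type u) [NormedAddCommGroup X] [NormedSpace ℝ X] [FiniteDimensional ℝ X] (h v : X),
    BJ h v → ∃ g : X →L[ℝ] ℝ, (∀ y, g y ≤ ‖y‖) ∧ g h = ‖h‖ ∧ g v = 0

/-- K4A. Let O be open, `z` a unit vector with `‖x + t z‖ = ‖x‖ + t` for x ∈ O, t ≥ 0. Let x₁, x₂ ∈ O be smooth,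
close, `D x₁ ≠ D x₂`, `h = a x₁ + b x₂ ∈ O` (a, b ≥ 0). Then `‖h‖ = max (D x₁ h) (D x₂ h)`.
Proof. Every functional g with `g y ≤ ‖y‖`, `g y₀ = ‖y₀‖`, y₀ ∈ O has `g z = 1`: `g z ≤ 1`; for small t > 0
`y₀ - t z ∈ O`, so `‖y₀‖ = ‖y₀ - t z‖ + t`, `g y₀ - t g z ≤ ‖y₀ - t z‖ = ‖y₀‖ - t`, so `g z ≥ 1`. In particular `D x₁ z = D x₂ z = 1`.
`D x₁`, `D x₂` are independent (c = 1 at z). Let `v ≠ 0` be in both kernels. By S2 BJ h v, by HB there is `g` norming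
h with `g v = 0`. As the dimension is 3, `g = α D x₁ + β D x₂`, and `α + β = 1`. If α < 0: `g x₂ ≤ ‖x₂‖` gives
`α D x₁ x₂ + (1 - α) ‖x₂‖ ≤ ‖x₂‖`, so `D x₁ x₂ ≥ ‖x₂‖`, so `D x₁ = D x₂` by UNI, contradiction. Likewise β < 0. So α, β ≥ 0 and
`‖h‖ = g h = α D x₁ h + β D x₂ h ≤ max ≤ ‖h‖`. -/
def S_K4A : Prop :=
  S_S2.{u} → S_BJD.{u} → S_UNI.{u} → S_HB.{u} →
    ∀ (X : Type u) [NormedAddCommGroup X] [NormedSpace ℝ X] [FiniteDimensional ℝ X],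
    finrank ℝ X = 3 → PropP X → ∀ (z : X) (O : Set X), ‖z‖ = 1 → IsOpen O →
      (∀ x ∈ O, ∀ t : ℝ, 0 ≤ t → ‖x + t • z‖ = ‖x‖ + t) →
      ∀ x₁ x₂ : X, x₁ ∈ O → x₂ ∈ O → Sm x₁ → Sm x₂ → ‖x₁ - x₂‖ ≤ ‖x₁‖ / 8 →
        ‖x₁ - x₂‖ ≤ ‖x₂‖ / 8 → D x₁ ≠ D x₂ →
        ∀ a b : ℝ, 0 ≤ a → 0 ≤ b → a • x₁ + b • x₂ ∈ O →
          ‖a • x₁ + b • x₂‖ = max (D x₁ (a • x₁ + b • x₂)) (D x₂ (a • x₁ + b • x₂))

/-- K4B. Such an open set O (nonempty, inside the ball of radius 1/16 around the unit vector z) does not exist. Shrink O to a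
ball B = B(c, r) inside O, r ≤ 1/32 (norms of points are at least 7/8, distances at most 1/16). Take a smooth `x₁` in B
(S_DEN scaled, or AE). There is a smooth `x₂` in B with `D x₂ ≠ D x₁`: otherwise, with `w ≠ 0`, `D x₁ w = 0`, all smooth x ∈ B are BJ
to w, by density (BJ is closed) all x ∈ B, against `no_flat`. There are c₀ > 0 and a ball B' ⊆ B around `x₂` with
`D x x₁ ≤ ‖x₁‖ - c₀` for all smooth x ∈ B': otherwise smooth `x k → x₂` with `D (x k) x₁ → ‖x₁‖`, pass to a limit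
functional g: `g y ≤ ‖y‖`, `g x₂ = ‖x₂‖`, `g x₁ = ‖x₁‖`, so `g = D x₂` by UNI at x₂ and `g = D x₁` by UNI at x₁, contradiction.
So `D x ≠ D x₁` for these x. Choose `t ∈ (0,1)` with `(1 - t) c₀ > 4 t`. For smooth x ∈ B', `h = (1-t) x₁ + t x ∈ B` (convex) and
`D x₁ h - D x h = (1-t) (‖x₁‖ - D x x₁) + t (D x₁ x - ‖x‖) ≥ (1-t) c₀ - 4 t > 0`, so by K4A `‖h‖ = D x₁ h`. By density `‖h‖ = D x₁ h` for
all h in the open set `(1-t) x₁ + t B'`. So every point h of this open set is BJ to `w` (`‖h + l w‖ ≥ D x₁ (h + l w) = D x₁ h = ‖h‖`),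
against `no_flat`. -/
def S_K4B : Prop :=
  S_K4A.{u} → S_S2.{u} → S_BJD.{u} → S_UNI.{u} → S_HB.{u} → S_DEN.{u} → S_AE.{u} →
    ∀ (X : Type u) [NormedAddCommGroup X] [NormedSpace ℝ X] [FiniteDimensional ℝ X],
    finrank ℝ X = 3 → PropP X → ∀ (z : X) (O : Set X), ‖z‖ = 1 → IsOpen O → O.Nonempty →
      O ⊆ Metric.ball z (1 / 16) →
      (∀ x ∈ O, ∀ t : ℝ, 0 ≤ t → ‖x + t • z‖ = ‖x‖ + t) → False

end Pool.Agent.Q264.KS
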