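import Pool.Agent.Q264.KS.Stm3

/-!
# The full theorem in all dimensions (project KS, MP_a3b3eb_an), proofs in the docstrings
-/

namespace Pool.Agent.Q264.KS

open Module Filter Topology

universe u

/-- A system with axis `p` and constant `κ`. -/
structure Sys {X : Type*} [NormedAddCommGroup X] [NormedSpace ℝ X] {n : ℕ} (p : X) (κ : ℝ)
    (v : Fin n → X) (h : Fin n → X →L[ℝ] ℝ) : Prop where
  le : ∀ i y, h i y ≤ ‖y‖
  one : ∀ i, ‖v i‖ = 1
  diag : ∀ i, h i (v i) = 1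
  ne : ∀ i, h i p ≠ 0
  off : ∀ k i, k ≠ i → h k (v i) = κ * h k p / h i p
  indep : LinearIndependent ℝ h

/-- GA. Systems exist for every axis `p ≠ 0` and every `κ ∈ (0,1)`. Let `b` be a basis of X indexed by Fin n and
`det h = Matrix.det (fun i j => h i (b j))`. Let `a = κ/(1-κ) > 0`. Maximise the continuous function
`G h = |det h| * ∏ |h i p| ^ a` (rpow) over the compact set of `h` with all `‖h i‖ ≤ 1` (dual finite
dimensional). The maximum is positive: there is `h` in the set with `det h ≠ 0` and all `h i p ≠ 0`: complete `p` to a basis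
`p = b' 0, b' 1, ...` with coordinate functionals `c i`, take `h 0 = c 0`, `h i = c 0 + c i` (so `h i p = 1`), scaled by a small number. At a maximiser h (det ≠ 0, η i = h i p ≠ 0) let `e i` be the vectors with
`h k (e i) = δ`, (dual basis). For `‖h'‖ ≤ 1` and `t ∈ [0,1]` replace `h i` by `(1-t) h i + t h'`: the
determinant is multiplied by `1 + t α`, `α = (h' - h i)(e i)`, and `h i p` by `1 + t β`, `β = (h' - h i) p / η i`. As
G does not increase, `(1 + tα)(1 + tβ)^a ≤ 1` for small t > 0, so (derivative at 0) `α + a β ≤ 0`. So with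
`w i = e i + (a/η i) p`: `h' (w i) ≤ h i (w i) = 1 + a` for all h' with ‖h'‖ ≤ 1; so `‖w i‖ = 1 + a` (exists_dual_vector).
Put `v i = w i/(1+a)`: `h i (v i) = 1`, `‖v i‖ = 1`, `h k (v i) = (a/(1+a)) η k/η i = κ η k / η i` for k ≠ i. Also
`h i y ≤ ‖y‖` as ‖h i‖ ≤ 1. -/
def S_GA : Prop :=
  ∀ (X : Type u) [NormedAddCommGroup X] [NormedSpace ℝ X] [FiniteDimensional ℝ X] (n : ℕ),
    finrank ℝ X = n → 2 ≤ n → ∀ (p : X) (κ : ℝ), p ≠ 0 → 0 < κ → κ < 1 →
      ∃ (v : Fin n → X) (h : Fin n → X →L[ℝ] ℝ), Sys p κ v h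

/-- Notation for FA, FB: `b` a basis of X, `dt b h = det (h i (b j))`, `FF b p h = dt b h + ∏ h i p`. -/
noncomputable def dt {X : Type*} [NormedAddCommGroup X] [NormedSpace ℝ X] {n : ℕ}
    (b : Basis (Fin n) ℝ X) (h : Fin n → X →L[ℝ] ℝ) : ℝ :=
  Matrix.det (Matrix.of fun i j => h i (b j))

noncomputable def FF {X : Type*} [NormedAddCommGroup X] [NormedSpace ℝ X] {n : ℕ}
    (b : Basis (Fin n) ℝ X) (p : X) (h : Fin n → X →L[ℝ] ℝ) : ℝ :=
  dt b h + ∏ i, h i p

/-- `h` maximises `FF b p` on the product of the dual balls. -/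
def IsMx {X : Type*} [NormedAddCommGroup X] [NormedSpace ℝ X] {n : ℕ}
    (b : Basis (Fin n) ℝ X) (p : X) (h : Fin n → X →L[ℝ] ℝ) : Prop :=
  (∀ i, ‖h i‖ ≤ 1) ∧ ∀ h' : Fin n → X →L[ℝ] ℝ, (∀ i, ‖h' i‖ ≤ 1) → FF b p h' ≤ FF b p h

/-- FA. There is a nonempty open set of `p` such that every maximiser h of `FF b p` has `dt b h > 0` and `∏ h i p > 0`.
Let `d₀ = dt b h₀ > 0` be the maximum of `dt b` on the compact product of dual balls (positive: scaled coordinate
functionals). Let `e i` be the dual basis of h₀ (`h₀ k (e i) = δ`), `p₁ = c ∑ e i`, c > 0 small, `‖p₁‖^n < d₀`.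
`FF b p₁ h₀ = d₀ + c^n > d₀`. Let O = {p : ‖p‖^n < d₀ and FF b p h₀ > d₀}, open, contains p₁. For p ∈ O and a maximiser h:
`FF b p h ≥ FF b p h₀ > d₀`; if `dt b h ≤ 0` then `FF b p h ≤ ∏ |h i p| ≤ ‖p‖^n < d₀`; if `∏ h i p ≤ 0` then
`FF b p h ≤ dt b h ≤ d₀`: contradictions. -/
def S_FA : Prop :=
  ∀ (X : Type u) [NormedAddCommGroup X] [NormedSpace ℝ X] [FiniteDimensional ℝ X] (n : ℕ)
    (b : Basis (Fin n) ℝ X), 2 ≤ n → ∃ O : Set X, IsOpen O ∧ O.Nonempty ∧
      ∀ p ∈ O, ∀ h : Fin n → X →L[ℝ] ℝ, IsMx b p h → 0 < dt b h ∧ 0 < ∏ i, h i p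

/-- FB. The maximum `Ψ p` of `FF b p` (attained, compactness) is locally Lipschitz in p, so differentiable almost everywhere, so
in every nonempty open set O there is `p` where Ψ is differentiable. Statement without Ψ: there is a linear functional
`L` (= dΨ(p)) such that for EVERY maximiser h at p the derivative at p of `q ↦ ∏ h i q`, that is
`∑ i (∏_{k≠i} h k p) h i`, equals L. (Ψ q ≥ FF b q h with equality at p, so Ψ - FF b · h has a minimum at p; `dt b h` does not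
depend on q.) Lipschitz: on a ball of radius R, `|∏ h i p - ∏ h i q| ≤ n R^(n-1) ‖p - q‖` if all ‖h i‖ ≤ 1. (Rademacher:
LipschitzOnWith version `LipschitzOnWith.ae_differentiableWithinAt`, or extend.) -/
def S_FB : Prop :=
  ∀ (X : Type u) [NormedAddCommGroup X] [NormedSpace ℝ X] [FiniteDimensional ℝ X] (n : ℕ)
    (b : Basis (Fin n) ℝ X) (O : Set X), IsOpen O → O.Nonempty →
      ∃ p ∈ O, (∃ h : Fin n → X →L[ℝ] ℝ, IsMx b p h) ∧ ∃ L : X →L[ℝ] ℝ,
        ∀ h : Fin n → X →L[ℝ] ℝ, IsMx b p h →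
          ∑ i, (∏ k ∈ Finset.univ.erase i, h k p) • h i = L

/-- FC. A smooth system exists. Take O from FA and p from FB (p ≠ 0 as the product is positive), h a maximiser, `F = FF b p h > 0`,
`η i = h i p ≠ 0`, `P = ∏ η i > 0`, `κ = P / F ∈ (0,1)` (as dt b h > 0). `h` is linearly independent (dt ≠ 0). Let `e i` be the
dual basis, `w i = dt b h • e i + (P/η i) • p`. Multilinearity: for every functional h',
`FF b p (h with h i replaced by h') = h' (w i)` (both sides linear in h'; for h' = h k, k ≠ i, the determinant vanishes and the product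
is P η k/η i; for h' = h i it is F; the h k span the dual). So `h' (w i) ≤ F = h i (w i)` for ‖h'‖ ≤ 1, so `‖w i‖ = F`; `v i = w i / F`:
`‖v i‖ = 1`, `h i (v i) = 1`, `h k (v i) = κ η k/η i`. Uniqueness: let `g y ≤ ‖y‖` for all y, `g (v i) = 1`. Then ‖g‖ ≤ 1 and
`h¹ = h with h i replaced by g` has `FF = g (w i) = F`, so it is a maximiser too. By FB the two sums agree: with `Q = ∏_{k≠i} η k ≠ 0`,
`S = ∑_{k≠i} (1/η k) h k`, the sum for h is `Q (h i + (h i p) S)`, for h¹ it is `Q (g + (g p) S)`. So `δ = g - h i` satisfies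
`δ + δ(p) S = 0`; at p: `δ(p) (1 + (n-1)) = 0`, so δ(p) = 0 and δ = 0. -/
def S_FC : Prop :=
  S_FA.{u} → S_FB.{u} → ∀ (X : Type u) [NormedAddCommGroup X] [NormedSpace ℝ X] [FiniteDimensional ℝ X] (n : ℕ),
    finrank ℝ X = n → 2 ≤ n → ∃ (p : X) (κ : ℝ) (v : Fin n → X) (h : Fin n → X →L[ℝ] ℝ),
      p ≠ 0 ∧ 0 < κ ∧ κ < 1 ∧ Sys p κ v h ∧
        ∀ i, ∀ g : X →L[ℝ] ℝ, (∀ y, g y ≤ ‖y‖) → g (v i) = 1 → g = h i

end Pool.Agent.Q264.KS
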