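import Pool.Agent.Q264.KS.Main
import Pool.Agent.Q264.KS.Local
import Pool.Agent.Q25.KS.FINA
import Pool.Agent.Q18.KS.FINB
import Pool.Agent.Q222.KS.FINC
import Pool.Agent.Q231.KS.FIND
import Pool.Agent.Q121.KS.CLO
import Pool.Agent.Q103.KS.DEN
import Pool.Agent.Q252.KS.SELN
import Pool.Agent.Q181.KS.SELS
import Pool.Agent.Q71.KS.SEL
import Pool.Agent.Q214.KS.UNI
import Pool.Agent.Q224.KS.MIN
import Pool.Agent.Q224.KS.TWO

/-!
# Assembly: smooth spaces and dimension two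
-/

namespace Pool.Agent.Q264.KS

open Module

universe u

theorem hilb_of_refl {X : Type u} [NormedAddCommGroup X] [NormedSpace ℝ X]
    (h : ∀ v : X, ‖v‖ = 1 → Refl v) : IsHilb X :=
  Q231.KS.t_FIND.{u} Q25.KS.t_FINA.{u} Q18.KS.t_FINB.{u} Q222.KS.t_FINC.{u} X h

theorem uniq_of_smooth {X : Type u} [NormedAddCommGroup X] [NormedSpace ℝ X]
    (hs : ∀ x : X, x ≠ 0 → DifferentiableAt ℝ (fun z : X => ‖z‖) x) : Uniq X := by
  intro x hx f g hf hfx hg hgx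
  rw [Q214.KS.t_UNI.{u} X x (hs x hx) f hf hfx, Q214.KS.t_UNI.{u} X x (hs x hx) g hg hgx]

theorem smooth_case {X : Type u} [NormedAddCommGroup X] [NormedSpace ℝ X]
    [FiniteDimensional ℝ X] (hn : 2 ≤ finrank ℝ X)
    (hs : ∀ x : X, x ≠ 0 → DifferentiableAt ℝ (fun z : X => ‖z‖) x) (hP : PropP X) :
    IsHilb X := by
  apply hilb_of_refl
  intro v hv
  have hv0 : v ≠ 0 := fun h => by
    rw [h, norm_zero] at hv
    norm_num at hv
  obtain ⟨x, f, h1, h2, h3, h4, h5, h6, h7⟩ :=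
    Q71.KS.SEL.t_SEL.{u} Q252.KS.t_SELN.{u} Q181.KS.t_SELS.{u} X hn (uniq_of_smooth hs) v hv0
  exact refl_of_sel Q214.KS.t_BJD.{u} Q224.KS.t_MIN.{u} Q214.KS.t_UNI.{u} hn hs hP v hv x f
    h1 h2 h3 h4 h5 h6 h7

theorem two_case {X : Type u} [NormedAddCommGroup X] [NormedSpace ℝ X]
    [FiniteDimensional ℝ X] (hn : finrank ℝ X = 2) (hP : PropP X) : IsHilb X := by
  apply hilb_of_refl
  apply Q121.KS.t_CLO.{u} X
  intro v hv ε hε
  obtain ⟨w, hw1, hw2, hw3⟩ := Q103.KS.t_DEN.{u} X v hv ε hε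
  exact ⟨w, hw1, hw2, Q224.KS.t_TWO.{u} Q214.KS.t_BJD.{u} Q224.KS.t_MIN.{u} X hn hP w hw1 hw3⟩

end Pool.Agent.Q264.KS
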