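import Pool.Agent.Q264.KS.Asm
import Pool.Agent.Q264.KS.Stm3
import Pool.Agent.Q79.KS.S2
import Pool.Agent.Q18.KS.S2C
import Pool.Agent.Q214.KS.K0
import Pool.Agent.Q231.KS.AE
import Pool.Agent.Q222.KS.K2
import Pool.Agent.Q178.KS.HB
import Pool.Agent.Q184.KS.K4A
import Pool.Agent.Q184.KS.K4B

/-!
# Assembly: dimension three
-/

namespace Pool.Agent.Q264.KS

open Module

universe u

theorem three_case {X : Type u} [NormedAddCommGroup X] [NormedSpace ℝ X]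
    [FiniteDimensional ℝ X] (hn : finrank ℝ X = 3) (hP : PropP X) : IsHilb X := by
  have h1 : ∀ z : X, ‖z‖ = 1 → Sm z := by
    intro z hz
    by_contra hcon
    obtain ⟨O, hO, hne, hsub, hO2⟩ := Q222.KS.K2.t_K2.{u} Q18.KS3.t_S2C.{u} Q79.KS.t_S2.{u}
      Q214.KS.t_BJD.{u} Q214.KS.t_UNI.{u} Q103.KS.t_DEN.{u} Q214.KS.t_K0.{u} Q231.KS.t_AE.{u}
      X hn hP z hz hcon
    exact Q184.KS.K4B.t_K4B.{u} Q184.KS.K4A.t_K4A.{u} Q79.KS.t_S2.{u} Q214.KS.t_BJD.{u}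
      Q214.KS.t_UNI.{u} Q178.KS.t_HB.{u} Q103.KS.t_DEN.{u} Q231.KS.t_AE.{u} X hn hP z O hz hO hne
      hsub hO2
  apply smooth_case (by omega) _ hP
  intro x hx
  have hxn : 0 < ‖x‖ := norm_pos_iff.2 hx
  have h2 := h1 ((‖x‖⁻¹) • x) (by rw [norm_smul, norm_inv, norm_norm, inv_mul_cancel₀ hxn.ne'])
  exact (differentiableAt_norm_smul (inv_ne_zero hxn.ne')).2 h2

end Pool.Agent.Q264.KS
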