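import Mathlib

/-!
# K-sets, property (P) (MP_a3b3eb_an)
-/

namespace Pool.Agent.Q264.KS

open Module

/-- Birkhoff-James orthogonality. -/
def BJ {X : Type*} [NormedAddCommGroup X] [NormedSpace ℝ X] (x y : X) : Prop :=
  ∀ l : ℝ, ‖x‖ ≤ ‖x + l • y‖

/-- `T` preserves Birkhoff-James orthogonality at `x`. -/
def Pres {X : Type*} [NormedAddCommGroup X] [NormedSpace ℝ X] (T : X →ₗ[ℝ] X) (x : X) : Prop :=
  ∀ y, BJ x y → BJ (T x) (T y)

/-- K-sets: every linear operator preserving Birkhoff-James orthogonality at the points of `A`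
is a real multiple of a linear isometry. -/
def IsK {X : Type*} [NormedAddCommGroup X] [NormedSpace ℝ X] (A : Set X) : Prop :=
  ∀ T : X →ₗ[ℝ] X, (∀ x ∈ A, Pres T x) →
    ∃ (c : ℝ) (U : X →ₗ[ℝ] X), (∀ z, ‖U z‖ = ‖z‖) ∧ T = c • U

/-- Minimal K-sets. -/
def IsMinK {X : Type*} [NormedAddCommGroup X] [NormedSpace ℝ X] (A : Set X) : Prop :=
  IsK A ∧ ∀ B, B ⊂ A → ¬ IsK B

/-- Condition (i): `A` consists of `n = dim X` linearly independent vectors. -/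
def IsBasis {X : Type*} [NormedAddCommGroup X] [NormedSpace ℝ X] (A : Set X) : Prop :=
  ∃ x : Fin (finrank ℝ X) → X, LinearIndependent ℝ x ∧ A = Set.range x

/-- Condition (ii). -/
def Conn {X : Type*} [NormedAddCommGroup X] [NormedSpace ℝ X] (A : Set X) : Prop :=
  ∀ A₁ A₂ : Set X, A = A₁ ∪ A₂ → A₁.Nonempty → A₂.Nonempty →
    ¬ ∀ x ∈ A₁, ∀ y ∈ A₂, BJ x y

/-- Property (P). -/
def PropP (X : Type*) [NormedAddCommGroup X] [NormedSpace ℝ X] : Prop :=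
  ∀ A : Set X, A.Nonempty → (∀ x ∈ A, ‖x‖ = 1) → (IsMinK A ↔ (IsBasis A ∧ Conn A))

/-- The norm comes from an inner product. -/
def IsHilb (X : Type*) [NormedAddCommGroup X] [NormedSpace ℝ X] : Prop :=
  ∃ B : X →ₗ[ℝ] X →ₗ[ℝ] ℝ, (∀ x y, B x y = B y x) ∧ ∀ x, B x x = ‖x‖ ^ 2

/-- There is an isometric reflection that changes the sign of `v`. -/
def Refl {X : Type*} [NormedAddCommGroup X] [NormedSpace ℝ X] (v : X) : Prop :=
  ∃ g : X →ₗ[ℝ] ℝ, g v = 1 ∧ ∀ z, ‖z - (2 * g z) • v‖ = ‖z‖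

/-- Norming functionals are unique (smoothness). -/
def Uniq (X : Type*) [NormedAddCommGroup X] [NormedSpace ℝ X] : Prop :=
  ∀ x : X, x ≠ 0 → ∀ f g : X →L[ℝ] ℝ, (∀ z, f z ≤ ‖z‖) → f x = ‖x‖ →
    (∀ z, g z ≤ ‖z‖) → g x = ‖x‖ → f = g

end Pool.Agent.Q264.KS
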