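import Pool.Agent.Q264.KS.Trans
import Pool.Agent.Q178.KS.HB
import Pool.Agent.Q154.KS.FA
import Pool.Agent.Q113.KS4_FC
import Pool.Agent.Q113.KS4_FB
import Pool.Agent.Q86.MK.GA

/-!
# Assembly: the open direction in all dimensions
-/

namespace Pool.Agent.Q264.KS

open Module

universe u

theorem final_open {X : Type u} [NormedAddCommGroup X] [NormedSpace ℝ X] [FiniteDimensional ℝ X]
    (hn : 2 ≤ finrank ℝ X) (hP : PropP X) : IsHilb X :=
  full Q178.KS.t_HB.{u} _root_.Q86.MK.t_GA.{u}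
    (Q113.KS4_FC.t_FC.{u} Q154.KS.t_FA.{u} Q113.KS4_FB.t_FB.{u}) hn hP

end Pool.Agent.Q264.KS
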