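import Pool.Agent.Q264.KS.Def

/-!
# The known direction: a Hilbert space has property (P)
-/

namespace Pool.Agent.Q264.KS

open Module

universe u

/-- HPA. In a Hilbert space (form B): (1) `BJ x y` iff `B x y = 0` (expand ‖x + l y‖² = ‖x‖² + 2 l B x y + l² ‖y‖²).
(2) If A satisfies (i) and (ii) then A is a minimal K-set. Let T preserve BJ at all `x i` (the basis, nonzero vectors). For each i the functional
`y ↦ B (T xᵢ) (T y)` vanishes on the kernel of `B xᵢ`, so it is `λᵢ B xᵢ`. If `B xᵢ xⱼ ≠ 0` then by symmetry `λᵢ = λⱼ`. With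
A₁ = {xᵢ : λᵢ = λ₀}, A₂ = the others: if A₂ is not empty then A₁ ⊥ A₂, against (ii). So `B (T x) (T y) = λ B x y` for all x, y, `‖T z‖² = λ ‖z‖²`,
λ ≥ 0; λ = 0: T = 0 = 0 • id; λ > 0: c = √λ, U = c⁻¹ T. Minimal: a proper subset B' of A does not span X; take a functional φ ≠ 0
vanishing on B' and w ≠ 0; `T = φ.smulRight w` sends B' to 0, so it preserves BJ there (BJ 0 y always holds), but it is not `c U`: T ≠ 0 and T is not
injective (dim ≥ 2). -/
def S_HPA : Prop :=
  ∀ (X : Type u) [NormedAddCommGroup X] [NormedSpace ℝ X] [FiniteDimensional ℝ X],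
    2 ≤ finrank ℝ X → IsHilb X → ∀ A : Set X, (∀ x ∈ A, ‖x‖ = 1) →
      IsBasis A → Conn A → IsMinK A

/-- HPB. In a Hilbert space a minimal K-set A of unit vectors, A nonempty, satisfies (i) and (ii).
(ii): let A = A₁ ∪ A₂, both nonempty, A₁ ⊥ A₂; T = orthogonal projection to the span of A₁ (T x = x on A₁, T x = 0 on A₂, and it is
symmetric for B; it exists in finite dimension, for example through an InnerProductSpace structure or orthonormal basis, or
LinearMap.BilinForm orthogonal complement). T preserves BJ at the points of A, T ≠ c U as T kills a unit vector and T ≠ 0.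
(i): A spans X (else the operator φ.smulRight w of HPA, φ vanishing on A, contradicts K). Take a linearly independent subset A' of A of maximal
cardinality among the linearly independent nonempty subsets that satisfy (ii) (singletons qualify). Let W = span A'. If W ≠ X then A₁ = A ∩ W and
A₂ = A \ W are nonempty, so by (ii) for A there are a₁ ∈ A₁, a₂ ∈ A₂ with B a₁ a₂ ≠ 0; some x ∈ A' has B x a₂ ≠ 0 (otherwise a₂ ⊥ W);
A' ∪ {a₂} is independent and satisfies (ii): contradiction. So A' is a basis with (ii), a K-set by HPA, so A' = A by minimality. -/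
def S_HPB : Prop :=
  S_HPA.{u} → ∀ (X : Type u) [NormedAddCommGroup X] [NormedSpace ℝ X] [FiniteDimensional ℝ X],
    2 ≤ finrank ℝ X → IsHilb X → ∀ A : Set X, A.Nonempty → (∀ x ∈ A, ‖x‖ = 1) →
      IsMinK A → IsBasis A ∧ Conn A

end Pool.Agent.Q264.KS
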