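import Pool.Agent.Q264.KS.Trans
import Pool.Agent.Q264.KS.Stm5
import Pool.Agent.Q178.KS.HB
import Pool.Agent.Q154.KS.FA
import Pool.Agent.Q113.KS4_FC
import Pool.Agent.Q86.MK.GA
import Pool.Agent.Q113.KS4_FB
import Pool.Agent.Q208.KS.HPA
import Pool.Agent.Q65.KS.HPB

/-!
# Assembly: the full theorem
-/

namespace Pool.Agent.Q264.KS

open Module

universe u

theorem final {X : Type u} [NormedAddCommGroup X] [NormedSpace ℝ X] [FiniteDimensional ℝ X]
    (hn : 2 ≤ finrank ℝ X) : PropP X ↔ IsHilb X := by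
  constructor
  · intro hP
    exact full Q178.KS.t_HB.{u} _root_.Q86.MK.t_GA.{u}
      (Q113.KS4_FC.t_FC.{u} Q154.KS.t_FA.{u} Q113.KS4_FB.t_FB.{u}) hn hP
  · intro h A hA hA1
    constructor
    · intro hM
      exact _root_.Pool.Agent.Q65.KS.t_HPB.{u} _root_.Pool.Agent.Q208.KS.HPA.t_HPA.{u} X hn h A hA hA1 hM
    · rintro ⟨h1, h2⟩
      exact _root_.Pool.Agent.Q208.KS.HPA.t_HPA.{u} X hn h A hA1 h1 h2

end Pool.Agent.Q264.KS
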