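import Pool.Agent.Q264.KS.Stm

/-!
# The reflection at `v` in a smooth space with property (P)
-/

namespace Pool.Agent.Q264.KS

open Module

universe u

theorem refl_of_sel (hB : S_BJD.{u}) (hM : S_MIN.{u}) (hU : S_UNI.{u}) {X : Type u}
    [NormedAddCommGroup X] [NormedSpace ℝ X] [FiniteDimensional ℝ X] (hn : 2 ≤ finrank ℝ X)
    (hs : ∀ x : X, x ≠ 0 → DifferentiableAt ℝ (fun z : X => ‖z‖) x) (hP : PropP X) (v : X)
    (hv : ‖v‖ = 1) (x : Fin (finrank ℝ X - 1) → X) (f : Fin (finrank ℝ X - 1) → X →L[ℝ] ℝ)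
    (hx1 : ∀ i, ‖x i‖ = 1) (hfx : ∀ i, f i (x i) = ‖f i‖) (hfv : ∀ i, f i v = 0)
    (hpos : ∀ i j, 0 < f i (x j)) (hfi : LinearIndependent ℝ f) (hxi : LinearIndependent ℝ x)
    (hvx : v ∉ Submodule.span ℝ (Set.range x)) : Refl v := by
  classical
  have hnt : Nontrivial X := Module.nontrivial_of_finrank_pos (R := ℝ) (by omega)
  set i0 : Fin (finrank ℝ X - 1) := ⟨0, by omega⟩ with hi0
  have hx0 : ∀ i, x i ≠ 0 := fun i h => by
    have := hx1 i
    rw [h, norm_zero] at this
    norm_num at this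
  -- derivative at x i
  set D : Fin (finrank ℝ X - 1) → X →L[ℝ] ℝ := fun i => fderiv ℝ (fun z : X => ‖z‖) (x i) with hD
  have hfn : ∀ i, 0 < ‖f i‖ := fun i => by rw [← hfx i]; exact hpos i i
  have hfD : ∀ i, (‖f i‖⁻¹) • f i = D i := by
    intro i
    apply hU X (x i) (hs _ (hx0 i))
    · intro z
      have h1 : f i z ≤ ‖f i‖ * ‖z‖ := le_trans (le_abs_self _) ((f i).le_opNorm z)
      have h2 : (‖f i‖⁻¹ • f i) z = ‖f i‖⁻¹ * f i z := rfl
      rw [h2]
      calc ‖f i‖⁻¹ * f i z ≤ ‖f i‖⁻¹ * (‖f i‖ * ‖z‖) :=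
            mul_le_mul_of_nonneg_left h1 (inv_nonneg.2 (norm_nonneg _))
        _ = ‖z‖ := by field_simp [(hfn i).ne']
    · have h2 : (‖f i‖⁻¹ • f i) (x i) = ‖f i‖⁻¹ * f i (x i) := rfl
      rw [h2, hfx i, hx1 i, inv_mul_cancel₀ (hfn i).ne']
  have hDf : ∀ i z, D i z = 0 ↔ f i z = 0 := by
    intro i z
    rw [← hfD i]
    have h2 : (‖f i‖⁻¹ • f i) z = ‖f i‖⁻¹ * f i z := rfl
    rw [h2]
    constructor
    · intro h
      rcases mul_eq_zero.1 h with h | h
      · exact absurd h (inv_ne_zero (hfn i).ne')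
      · exact h
    · intro h
      rw [h, mul_zero]
  have hBi : ∀ i z, BJ (x i) z ↔ f i z = 0 := fun i z =>
    (hB X (x i) (hs _ (hx0 i)) z).trans (hDf i z)
  -- the functional
  obtain ⟨φ0, hφ0v, hφ0⟩ :=
    Submodule.exists_dual_map_eq_bot_of_notMem (p := Submodule.span ℝ (Set.range x)) hvx
      inferInstance
  set φ : X →ₗ[ℝ] ℝ := (φ0 v)⁻¹ • φ0 with hφ
  have hφv : φ v = 1 := by
    have : φ v = (φ0 v)⁻¹ * φ0 v := rfl
    rw [this, inv_mul_cancel₀ hφ0v]
  have hφx : ∀ i, φ (x i) = 0 := by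
    intro i
    have h1 : φ0 (x i) ∈ (Submodule.span ℝ (Set.range x)).map φ0 :=
      Submodule.mem_map_of_mem (Submodule.subset_span ⟨i, rfl⟩)
    rw [hφ0, Submodule.mem_bot] at h1
    have : φ (x i) = (φ0 v)⁻¹ * φ0 (x i) := rfl
    rw [this, h1, mul_zero]
  have hφne : φ ≠ 0 := fun h => by
    rw [h] at hφv
    simp at hφv
  have hker : Submodule.span ℝ (Set.range x) = LinearMap.ker φ := by
    apply Submodule.eq_of_le_of_finrank_eq
    · rw [Submodule.span_le]
      rintro _ ⟨i, rfl⟩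
      exact hφx i
    · rw [finrank_span_eq_card hxi, Fintype.card_fin]
      have := Module.Dual.finrank_ker_add_one_of_ne_zero (f := φ) hφne
      omega
  set R : X →ₗ[ℝ] X := LinearMap.id - (2 : ℝ) • φ.smulRight v with hR
  have hRz : ∀ z, R z = z - (2 * φ z) • v := by
    intro z
    simp [hR, smul_smul]
  refine ⟨φ, hφv, ?_⟩
  by_contra hcon
  push Not at hcon
  obtain ⟨z0, hz0⟩ := hcon
  rw [← hRz] at hz0
  have hRR : ∀ z, R (R z) = z := by
    intro z
    rw [hRz (R z), hRz z, map_sub, map_smul, hφv, smul_eq_mul, mul_one]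
    rw [sub_sub, ← add_smul]
    have : 2 * φ z + 2 * (φ z - 2 * φ z) = 0 := by ring
    rw [this, zero_smul, sub_zero]
  have hRx : ∀ i, R (x i) = x i := fun i => by
    rw [hRz, hφx, mul_zero, zero_smul, sub_zero]
  have hw : ∃ w, ‖R w‖ < ‖w‖ := by
    rcases lt_or_gt_of_ne hz0 with h | h
    · exact ⟨z0, h⟩
    · refine ⟨R z0, ?_⟩
      rw [hRR]
      exact h
  obtain ⟨w, hw⟩ := hw
  obtain ⟨y, hy1, hymin, hyP⟩ := hM X R
  have hm : ‖R y‖ < 1 := by
    by_contra h
    push Not at h
    have h1 := hymin w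
    have h2 : ‖w‖ ≤ ‖R y‖ * ‖w‖ := by
      nlinarith [norm_nonneg w]
    linarith
  have hy0 : y ≠ 0 := fun h => by
    rw [h, norm_zero] at hy1
    norm_num at hy1
  have hφy : φ y ≠ 0 := fun h => by
    rw [hRz, h, mul_zero, zero_smul, sub_zero, hy1] at hm
    exact lt_irrefl _ hm
  have hyv : ∀ c : ℝ, y ≠ c • v := by
    intro c hc
    have h1 : R y = -y := by
      rw [hRz, hc, map_smul, hφv, smul_eq_mul, mul_one, two_mul, add_smul]
      abel
    rw [h1, norm_neg, hy1] at hm
    exact lt_irrefl _ hm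
  -- claim 1
  have hc1 : ∃ i, ¬ BJ (x i) y := by
    by_contra hall
    push Not at hall
    have hfy : ∀ i, f i y = 0 := fun i => (hBi i y).1 (hall i)
    -- v and y independent
    have hvy : LinearIndependent ℝ ![v, y] := by
      rw [LinearIndependent.pair_iff]
      intro s t hst
      by_cases ht : t = 0
      · rw [ht, zero_smul, add_zero] at hst
        rcases smul_eq_zero.1 hst with h | h
        · exact ⟨h, ht⟩
        · rw [h, norm_zero] at hv
          norm_num at hv
      · exfalso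
        apply hyv (-(t⁻¹ * s))
        have : t • y = -(s • v) := by
          rw [eq_neg_iff_add_eq_zero, add_comm]
          exact hst
        calc y = t⁻¹ • (t • y) := by rw [smul_smul, inv_mul_cancel₀ ht, one_smul]
          _ = t⁻¹ • (-(s • v)) := by rw [this]
          _ = (-(t⁻¹ * s)) • v := by rw [smul_neg, smul_smul, neg_smul]
    set W : Submodule ℝ X := Submodule.span ℝ (Set.range ![v, y]) with hW
    have hWf : finrank ℝ W = 2 := by
      rw [hW, finrank_span_eq_card hvy, Fintype.card_fin]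
    have hann := Subspace.finrank_add_finrank_dualAnnihilator_eq W
    set F : Fin (finrank ℝ X - 1) → Module.Dual ℝ X := fun i => (f i : X →ₗ[ℝ] ℝ) with hF
    have hFi : LinearIndependent ℝ F := by
      have := hfi.map' (ContinuousLinearMap.coeLM ℝ : (X →L[ℝ] ℝ) →ₗ[ℝ] (X →ₗ[ℝ] ℝ))
        (LinearMap.ker_eq_bot.2 ContinuousLinearMap.coe_injective)
      exact this
    have hle : Submodule.span ℝ (Set.range F) ≤ W.dualAnnihilator := by
      rw [Submodule.span_le]
      rintro _ ⟨i, rfl⟩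
      rw [SetLike.mem_coe, Submodule.mem_dualAnnihilator]
      intro w hw
      have : W ≤ LinearMap.ker (F i) := by
        rw [hW, Submodule.span_le]
        rintro _ ⟨j, rfl⟩
        fin_cases j
        · exact hfv i
        · exact hfy i
      exact this hw
    have h3 := Submodule.finrank_mono hle
    rw [finrank_span_eq_card hFi, Fintype.card_fin] at h3
    omega
  -- claim 2
  have hBy : ∀ z, BJ y z ↔ fderiv ℝ (fun z : X => ‖z‖) y z = 0 := fun z => hB X y (hs y hy0) z
  have hc2 : ∃ i, ¬ BJ y (x i) := by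
    by_contra hall
    push Not at hall
    set E := fderiv ℝ (fun z : X => ‖z‖) y with hE
    have h1 : ∀ i, E (x i) = 0 := fun i => (hBy (x i)).1 (hall i)
    have h2 : ∀ z ∈ LinearMap.ker φ, E z = 0 := by
      rw [← hker]
      intro z hz
      have : Submodule.span ℝ (Set.range x) ≤ LinearMap.ker (E : X →ₗ[ℝ] ℝ) := by
        rw [Submodule.span_le]
        rintro _ ⟨i, rfl⟩
        exact h1 i
      exact this hz
    have h3 : E (y - φ y • v) = 0 := by
      apply h2
      rw [LinearMap.mem_ker, map_sub, map_smul, hφv, smul_eq_mul, mul_one, sub_self]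
    have h4 : E y = 1 := by
      rw [hE, (hs y hy0).fderiv_norm_self, hy1]
    have h5 : E (R y) = -1 := by
      rw [hRz, map_sub, map_smul, smul_eq_mul]
      rw [map_sub, map_smul, smul_eq_mul] at h3
      linarith
    have h6 : ‖E (R y)‖ ≤ ‖E‖ * ‖R y‖ := E.le_opNorm _
    have h7 : ‖E‖ = 1 := norm_fderiv_norm (hs y hy0)
    rw [h5, h7, one_mul] at h6
    norm_num at h6
    linarith
  obtain ⟨i1, hi1⟩ := hc1
  obtain ⟨i2, hi2⟩ := hc2
  have hxx : ∀ i j, ¬ BJ (x i) (x j) := fun i j h => by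
    have := (hBi i (x j)).1 h
    exact absurd this (hpos i j).ne'
  have hyy : ¬ BJ y y := fun h => by
    have := h (-1)
    rw [neg_one_smul, add_neg_cancel, norm_zero, hy1] at this
    norm_num at this
  -- the set A
  set A : Set X := insert y (Set.range x) with hA
  have hAunit : ∀ a ∈ A, ‖a‖ = 1 := by
    intro a ha
    rcases ha with rfl | ⟨i, rfl⟩
    · exact hy1
    · exact hx1 i
  have hAbasis : IsBasis A := by
    have hcast : finrank ℝ X = (finrank ℝ X - 1) + 1 := by omega
    refine ⟨(Fin.cons y x : Fin ((finrank ℝ X - 1) + 1) → X) ∘ (finCongr hcast), ?_, ?_⟩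
    · apply LinearIndependent.comp _ _ (finCongr hcast).injective
      rw [linearIndependent_finCons]
      refine ⟨hxi, ?_⟩
      rw [hker]
      exact hφy
    · rw [Set.range_comp, (finCongr hcast).surjective.range_eq, Set.image_univ, Fin.range_cons]
  have hAconn : Conn A := by
    intro A₁ A₂ hAA hA1 hA2 hall
    have hyA : y ∈ A₁ ∪ A₂ := by
      rw [← hAA]
      exact Set.mem_insert _ _
    have hxA : ∀ i, x i ∈ A₁ ∪ A₂ := fun i => by
      rw [← hAA]
      exact Set.mem_insert_of_mem _ ⟨i, rfl⟩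
    by_cases hy1A : y ∈ A₁
    · have hy2A : y ∉ A₂ := fun h => hyy (hall y hy1A y h)
      have h1 : x i2 ∈ A₁ := by
        rcases hxA i2 with h | h
        · exact h
        · exact absurd (hall y hy1A _ h) hi2
      obtain ⟨b, hb⟩ := hA2
      have hbA : b ∈ A := by
        rw [hAA]
        exact Or.inr hb
      rcases hbA with rfl | ⟨j, rfl⟩
      · exact hy2A hb
      · exact hxx i2 j (hall _ h1 _ hb)
    · have hy2A : y ∈ A₂ := by
        rcases hyA with h | h
        · exact absurd h hy1A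
        · exact h
      have h1 : x i1 ∈ A₂ := by
        rcases hxA i1 with h | h
        · exact absurd (hall _ h y hy2A) hi1
        · exact h
      obtain ⟨a, ha⟩ := hA1
      have haA : a ∈ A := by
        rw [hAA]
        exact Or.inl ha
      rcases haA with rfl | ⟨j, rfl⟩
      · exact hy1A ha
      · exact hxx j i1 (hall _ ha _ h1)
  have hK : IsK A := ((hP A ⟨y, Set.mem_insert _ _⟩ hAunit).2 ⟨hAbasis, hAconn⟩).1
  obtain ⟨c, U, hUn, hRU⟩ := hK R (by
    intro a ha
    rcases ha with rfl | ⟨i, rfl⟩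
    · exact hyP
    · intro z hz
      rw [hRx, hBi]
      rw [hBi] at hz
      rw [hRz, map_sub, map_smul, hfv, hz, smul_zero, sub_zero])
  have hn1 : ∀ z, ‖R z‖ = |c| * ‖z‖ := by
    intro z
    rw [hRU, LinearMap.smul_apply, norm_smul, hUn, Real.norm_eq_abs]
  have hc : |c| = 1 := by
    have := hn1 (x i0)
    rw [hRx, hx1, mul_one] at this
    exact this.symm
  have := hn1 y
  rw [hc, hy1, one_mul] at this
  rw [this] at hm
  exact lt_irrefl _ hm

end Pool.Agent.Q264.KS
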