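import Pool.Agent.Q264.KS.Stm4
import Pool.Agent.Q264.KS.Asm

/-!
# From a smooth system and systems for all axes to the full theorem
-/

namespace Pool.Agent.Q264.KS

open Module

universe u

variable {X : Type u} [NormedAddCommGroup X] [NormedSpace ℝ X]

theorem sys_coef {n : ℕ} {p : X} {κ : ℝ} (hκ0 : 0 < κ) (hκ1 : κ < 1) {v : Fin n → X}
    {h : Fin n → X →L[ℝ] ℝ} (hs : Sys p κ v h) (a : Fin n → ℝ)
    (h0 : ∀ k, h k (∑ i, a i • v i) = 0) : ∀ i, a i = 0 := by
  classical
  have h1 : ∀ k, (1 - κ) * (a k / h k p) + κ * ∑ i, a i / h i p = 0 := by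
    intro k
    have h2 := h0 k
    rw [map_sum] at h2
    have h3 : ∀ i, h k (a i • v i) = κ * h k p * (a i / h i p) +
        (if i = k then (1 - κ) * a k else 0) := by
      intro i
      rw [map_smul, smul_eq_mul]
      by_cases hik : i = k
      · subst hik
        rw [hs.diag, if_pos rfl]
        have := hs.ne i
        field_simp
        ring
      · rw [hs.off k i (fun e => hik e.symm), if_neg hik]
        have := hs.ne i
        field_simp
        ring
    rw [Finset.sum_congr rfl (fun i _ => h3 i), Finset.sum_add_distrib, ← Finset.mul_sum,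
      Finset.sum_ite_eq' Finset.univ k, if_pos (Finset.mem_univ k)] at h2
    have h4 := hs.ne k
    have h5 : h k p * ((1 - κ) * (a k / h k p) + κ * ∑ i, a i / h i p) = 0 := by
      calc h k p * ((1 - κ) * (a k / h k p) + κ * ∑ i, a i / h i p)
          = κ * h k p * (∑ i, a i / h i p) + (1 - κ) * a k := by
            field_simp
            ring
        _ = 0 := h2
    rcases mul_eq_zero.1 h5 with h6 | h6
    · exact absurd h6 h4
    · exact h6
  have h2 : (1 - κ) * (∑ i, a i / h i p) + n * (κ * ∑ i, a i / h i p) = 0 := by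
    have := Finset.sum_congr rfl (fun k (_ : k ∈ Finset.univ) => h1 k)
    rw [Finset.sum_add_distrib, ← Finset.mul_sum, Finset.sum_const, Finset.card_univ,
      Fintype.card_fin, Finset.sum_const_zero, nsmul_eq_mul] at this
    exact this
  have hS : ∑ i, a i / h i p = 0 := by
    have h3 : ((1 - κ) + n * κ) * (∑ i, a i / h i p) = 0 := by
      linarith
    rcases mul_eq_zero.1 h3 with h4 | h4
    · have : 0 ≤ (n : ℝ) * κ := by positivity
      linarith
    · exact h4
  intro i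
  have h3 := h1 i
  rw [hS, mul_zero, add_zero] at h3
  rcases mul_eq_zero.1 h3 with h4 | h4
  · linarith
  · rcases div_eq_zero_iff.1 h4 with h5 | h5
    · exact h5
    · exact absurd h5 (hs.ne i)

theorem sys_indep {n : ℕ} {p : X} {κ : ℝ} (hκ0 : 0 < κ) (hκ1 : κ < 1) {v : Fin n → X}
    {h : Fin n → X →L[ℝ] ℝ} (hs : Sys p κ v h) : LinearIndependent ℝ v := by
  rw [Fintype.linearIndependent_iff]
  intro a ha i
  exact sys_coef hκ0 hκ1 hs a (fun k => by rw [ha, map_zero]) i

theorem sys_zero [FiniteDimensional ℝ X] {n : ℕ} (hn : finrank ℝ X = n) {p : X} {κ : ℝ}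
    (hκ0 : 0 < κ) (hκ1 : κ < 1) {v : Fin n → X} {h : Fin n → X →L[ℝ] ℝ} (hs : Sys p κ v h)
    (z : X) (hz : ∀ k, h k z = 0) : z = 0 := by
  have hli := sys_indep hκ0 hκ1 hs
  rcases Nat.eq_zero_or_pos n with h0 | h0
  · have : Subsingleton X := by
      rw [h0] at hn
      exact Module.finrank_zero_iff.1 hn
    exact Subsingleton.elim _ _
  · haveI : Nonempty (Fin n) := ⟨⟨0, h0⟩⟩
    let B := basisOfLinearIndependentOfCardEqFinrank hli (by rw [Fintype.card_fin, hn])
    have hB : ∀ i, B i = v i := fun i => by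
      simp [B]
    have hsum : ∑ i, B.repr z i • v i = z := by
      conv_rhs => rw [← B.sum_repr z]
      exact Finset.sum_congr rfl (fun i _ => by rw [hB])
    have h1 := sys_coef hκ0 hκ1 hs (fun i => B.repr z i) (fun k => by rw [hsum]; exact hz k)
    rw [← hsum]
    exact Finset.sum_eq_zero (fun i _ => by rw [h1 i, zero_smul])

theorem transport (hH : S_HB.{u}) [FiniteDimensional ℝ X] (hn : 2 ≤ finrank ℝ X)
    (hP : PropP X) {p₀ p : X} {κ : ℝ} (hκ0 : 0 < κ) (hκ1 : κ < 1)
    {x v : Fin (finrank ℝ X) → X} {f h : Fin (finrank ℝ X) → X →L[ℝ] ℝ}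
    (hx : Sys p₀ κ x f) (hv : Sys p κ v h)
    (hu : ∀ i, ∀ g : X →L[ℝ] ℝ, (∀ y, g y ≤ ‖y‖) → g (x i) = 1 → g = f i) :
    ∃ (c : ℝ) (U : X →ₗ[ℝ] X), c ≠ 0 ∧ (∀ z, ‖U z‖ = ‖z‖) ∧ c • U p₀ = p := by
  classical
  have hli := sys_indep hκ0 hκ1 hx
  haveI : Nonempty (Fin (finrank ℝ X)) := ⟨⟨0, by omega⟩⟩
  let B := basisOfLinearIndependentOfCardEqFinrank hli (by rw [Fintype.card_fin])
  have hB : ∀ i, B i = x i := fun i => by simp [B]
  set c : Fin (finrank ℝ X) → ℝ := fun i => h i p / f i p₀ with hc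
  have hcne : ∀ i, c i ≠ 0 := fun i => div_ne_zero (hv.ne i) (hx.ne i)
  let T : X →ₗ[ℝ] X := B.constr ℝ (fun i => c i • v i)
  have hT : ∀ i, T (x i) = c i • v i := fun i => by
    rw [← hB i]
    exact B.constr_basis ℝ _ i
  have hcomp : ∀ k z, h k (T z) = c k * f k z := by
    intro k
    have h1 : ((h k : X →ₗ[ℝ] ℝ) ∘ₗ T) = c k • (f k : X →ₗ[ℝ] ℝ) := by
      apply B.ext
      intro i
      rw [hB i]
      change h k (T (x i)) = c k * f k (x i)
      rw [hT, map_smul, smul_eq_mul]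
      by_cases hki : k = i
      · subst hki
        rw [hv.diag, hx.diag]
      · rw [hv.off k i hki, hx.off k i hki, hc]
        have h2 := hv.ne i
        have h3 := hx.ne i
        have h4 := hx.ne k
        simp only []
        field_simp
    intro z
    exact LinearMap.congr_fun h1 z
  have habs : ∀ k z, |h k z| ≤ ‖z‖ := by
    intro k z
    rw [abs_le]
    constructor
    · have := hv.le k (-z)
      rw [map_neg, norm_neg] at this
      linarith
    · exact hv.le k z
  have hfBJ : ∀ k y, BJ (x k) y → f k y = 0 := by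
    intro k y hy
    obtain ⟨g, hg1, hg2, hg3⟩ := hH X (x k) y hy
    rw [hx.one] at hg2
    rw [hu k g hg1 hg2] at hg3
    exact hg3
  have hPres : ∀ k, Pres T (x k) := by
    intro k y hy l
    have h1 := hfBJ k y hy
    have h2 : ‖T (x k)‖ = |c k| := by
      rw [hT, norm_smul, hv.one, mul_one, Real.norm_eq_abs]
    rw [h2]
    have h3 := habs k (T (x k) + l • T y)
    have h4 : h k (T (x k) + l • T y) = c k := by
      rw [map_add, map_smul, hcomp, hcomp, h1, hx.diag]
      simp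
    rw [h4] at h3
    exact h3
  have hno : ∀ i j, ¬ BJ (x i) (x j) := by
    intro i j hij
    have h1 := hfBJ i (x j) hij
    by_cases he : i = j
    · subst he
      rw [hx.diag] at h1
      norm_num at h1
    · rw [hx.off i j he] at h1
      have : κ * f i p₀ / f j p₀ ≠ 0 :=
        div_ne_zero (mul_ne_zero hκ0.ne' (hx.ne i)) (hx.ne j)
      exact this h1
  have hK : IsK (Set.range x) := by
    refine ((hP (Set.range x) ?_ ?_).2 ⟨⟨x, hli, rfl⟩, ?_⟩).1
    · exact ⟨x ⟨0, by omega⟩, ⟨_, rfl⟩⟩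
    · rintro _ ⟨i, rfl⟩
      exact hx.one i
    · intro A₁ A₂ hAA hA1 hA2 hall
      obtain ⟨a, ha⟩ := hA1
      obtain ⟨b, hb⟩ := hA2
      have haA : a ∈ Set.range x := by
        rw [hAA]
        exact Or.inl ha
      have hbA : b ∈ Set.range x := by
        rw [hAA]
        exact Or.inr hb
      obtain ⟨i, rfl⟩ := haA
      obtain ⟨j, rfl⟩ := hbA
      exact hno i j (hall _ ha _ hb)
  obtain ⟨d, U, hUn, hTU⟩ := hK T (by
    rintro _ ⟨i, rfl⟩
    exact hPres i)
  have hTp : T p₀ = p := by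
    have h1 : T p₀ - p = 0 := by
      apply sys_zero rfl hκ0 hκ1 hv
      intro k
      rw [map_sub, hcomp, hc]
      have := hx.ne k
      simp only []
      field_simp
      ring
    exact sub_eq_zero.1 h1
  refine ⟨d, U, ?_, hUn, ?_⟩
  · rintro rfl
    have h1 := hT ⟨0, by omega⟩
    rw [hTU, zero_smul, LinearMap.zero_apply] at h1
    have h2 : ‖c ⟨0, by omega⟩ • v ⟨0, by omega⟩‖ = 0 := by rw [← h1, norm_zero]
    rw [norm_smul, hv.one, mul_one, Real.norm_eq_abs, abs_eq_zero] at h2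
    exact hcne _ h2
  · rw [← hTp, hTU, LinearMap.smul_apply]

theorem full (hH : S_HB.{u}) (hG : S_GA.{u}) (hC : ∀ (X : Type u) [NormedAddCommGroup X]
      [NormedSpace ℝ X] [FiniteDimensional ℝ X] (n : ℕ),
      finrank ℝ X = n → 2 ≤ n → ∃ (p : X) (κ : ℝ) (v : Fin n → X) (h : Fin n → X →L[ℝ] ℝ),
      p ≠ 0 ∧ 0 < κ ∧ κ < 1 ∧ Sys p κ v h ∧
        ∀ i, ∀ g : X →L[ℝ] ℝ, (∀ y, g y ≤ ‖y‖) → g (v i) = 1 → g = h i)
    [FiniteDimensional ℝ X] (hn : 2 ≤ finrank ℝ X) (hP : PropP X) : IsHilb X := by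
  classical
  obtain ⟨p₀, κ, x, f, hp0, hκ0, hκ1, hx, hu⟩ := hC X (finrank ℝ X) rfl hn
  have key : ∀ p : X, p ≠ 0 → ∃ (c : ℝ) (U : X →ₗ[ℝ] X), c ≠ 0 ∧ (∀ z, ‖U z‖ = ‖z‖) ∧
      c • U p₀ = p := by
    intro p hp
    obtain ⟨v, h, hv⟩ := hG X (finrank ℝ X) rfl hn p κ hp hκ0 hκ1
    exact transport hH hn hP hκ0 hκ1 hx hv hu
  have hnt : Nontrivial X := Module.nontrivial_of_finrank_pos (R := ℝ) (by omega)
  -- the norm is differentiable at p₀
  have hd0 : DifferentiableAt ℝ (fun z : X => ‖z‖) p₀ := by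
    obtain ⟨e, he⟩ := exists_ne (0 : X)
    have hen : 0 < ‖e‖ := norm_pos_iff.2 he
    obtain ⟨w, hw1, -, hw3⟩ := Q103.KS.t_DEN.{u} X ((‖e‖⁻¹) • e)
      (by rw [norm_smul, norm_inv, norm_norm, inv_mul_cancel₀ hen.ne']) 1 one_pos
    have hw0 : w ≠ 0 := fun h => by
      rw [h, norm_zero] at hw1
      norm_num at hw1
    obtain ⟨c, U, hc, hU, hUp⟩ := key w hw0
    have h1 : DifferentiableAt ℝ (fun z : X => ‖z‖) (c • U p₀) := by rw [hUp]; exact hw3
    have h2 : DifferentiableAt ℝ (fun z : X => ‖z‖) (U p₀) := (differentiableAt_norm_smul hc).2 h1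
    have h3 : DifferentiableAt ℝ ((fun z : X => ‖z‖) ∘ (LinearMap.toContinuousLinearMap U)) p₀ := by
      apply DifferentiableAt.comp
      · exact h2
      · exact (LinearMap.toContinuousLinearMap U).differentiableAt
    have h4 : ((fun z : X => ‖z‖) ∘ (LinearMap.toContinuousLinearMap U)) = fun z : X => ‖z‖ := by
      funext z
      exact hU z
    rw [h4] at h3
    exact h3
  apply smooth_case hn _ hP
  intro y hy
  obtain ⟨c, U, hc, hU, hUp⟩ := key y hy
  let L : X →ₗᵢ[ℝ] X := ⟨U, hU⟩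
  let E : X ≃ₗᵢ[ℝ] X := L.toLinearIsometryEquiv rfl
  have hE : ∀ z, E z = U z := fun z => rfl
  have h1 : DifferentiableAt ℝ ((fun z : X => ‖z‖) ∘ (E.symm : X → X)) (U p₀) := by
    apply DifferentiableAt.comp
    · rw [← hE, E.symm_apply_apply]
      exact hd0
    · exact E.symm.toContinuousLinearEquiv.differentiableAt
  have h2 : ((fun z : X => ‖z‖) ∘ (E.symm : X → X)) = fun z : X => ‖z‖ := by
    funext z
    exact E.symm.norm_map z
  rw [h2] at h1
  have h3 := (differentiableAt_norm_smul (x := U p₀) hc).1 h1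
  rw [hUp] at h3
  exact h3

end Pool.Agent.Q264.KS
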